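import Pool.Agent.H223.EM.MDefs
import Pool.Agent.H306R2.EPLim

set_option autoImplicit false

/-! Eighth moment: the limit of the Euler product of a multiplicative function of `r` variables
(task MB). -/

namespace Pool.Agent.H403R2.EMMB

open Finset Filter Topology MeasureTheory Complex
open Pool.Agent.H306R2 Pool.Agent.H306R2.SM Pool.Agent.H223.EM

noncomputable section

lemma decomp {r : ℕ} (g : (Fin r → ℕ) → ℝ) (v : Fin r → ℕ) :
    g v = (if v = 0 then g 0 else 0) +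
      ∑ i, (if v = Pi.single i 1 then g (Pi.single i 1) else 0) +
      (if 2 ≤ ∑ i, v i then g v else 0) := by
  classical
  have hsg : ∀ i : Fin r, ∑ j, (Pi.single i 1 : Fin r → ℕ) j = 1 := by
    intro i
    simp
  by_cases h0 : ∑ i, v i = 0
  · have hv : v = 0 := by
      funext i
      have := (Finset.sum_eq_zero_iff.mp h0) i (mem_univ i)
      simpa using this
    have h1 : ∀ i ∈ (univ : Finset (Fin r)),
        (if v = Pi.single i 1 then g (Pi.single i 1) else 0) = 0 := by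
      intro i _
      rw [if_neg]
      intro hc
      rw [hc, hsg i] at h0
      omega
    rw [Finset.sum_eq_zero h1, if_pos hv, if_neg (by omega), hv]
    ring
  · by_cases h1 : ∑ i, v i = 1
    · have hne : ∃ i, v i ≠ 0 := by
        by_contra hcon
        push Not at hcon
        exact h0 (Finset.sum_eq_zero fun i _ => hcon i)
      obtain ⟨i, hi⟩ := hne
      have hle : ∀ j, v j ≤ 1 := by
        intro j
        rw [← h1]
        exact Finset.single_le_sum (f := v) (fun k _ => Nat.zero_le _) (mem_univ j)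
      have hvi : v i = 1 := by
        have := hle i
        omega
      have hv : v = Pi.single i 1 := by
        funext j
        by_cases hj : j = i
        · subst hj
          rw [Pi.single_eq_same]
          exact hvi
        · rw [Pi.single_eq_of_ne hj]
          by_contra hjc
          have h2 : v i + v j ≤ ∑ k, v k := by
            have : ∑ k ∈ ({i, j} : Finset (Fin r)), v k ≤ ∑ k, v k :=
              Finset.sum_le_sum_of_subset (Finset.subset_univ _)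
            rwa [Finset.sum_pair (Ne.symm hj)] at this
          omega
      have h3 : v ≠ 0 := by
        intro hc
        rw [hc] at hi
        exact hi rfl
      have h4 : ∀ j ∈ (univ : Finset (Fin r)), j ≠ i →
          (if v = Pi.single j 1 then g (Pi.single j 1) else 0) = 0 := by
        intro j _ hj
        rw [if_neg]
        intro hc
        have h5 := congrFun hc j
        rw [hv, Pi.single_eq_of_ne hj, Pi.single_eq_same] at h5
        omega
      rw [Finset.sum_eq_single i (fun j hj hji => h4 j hj hji) (fun h => absurd (mem_univ i) h),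
        if_neg h3, if_pos hv, if_neg (by omega), ← hv]
      ring
    · have h2 : 2 ≤ ∑ i, v i := by omega
      have h3 : v ≠ 0 := by
        intro hc
        rw [hc] at h0
        exact h0 (by simp)
      have h4 : ∀ i ∈ (univ : Finset (Fin r)),
          (if v = Pi.single i 1 then g (Pi.single i 1) else 0) = 0 := by
        intro i _
        rw [if_neg]
        intro hc
        rw [hc, hsg i] at h1
        exact h1 rfl
      rw [Finset.sum_eq_zero h4, if_neg h3, if_pos h2]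
      ring

lemma tsum_decomp {r : ℕ} (g : (Fin r → ℕ) → ℝ) (h0 : ∀ v, 0 ≤ g v) (hs : Summable g) :
    ∑' v, g v = g 0 + ∑ i, g (Pi.single i 1) + ∑' v, (if 2 ≤ ∑ i, v i then g v else 0) := by
  classical
  have h1 : HasSum (fun v : Fin r → ℕ => if v = 0 then g 0 else 0) (g 0) := hasSum_ite_eq 0 (g 0)
  have h2 : HasSum (fun v : Fin r → ℕ => ∑ i, (if v = Pi.single i 1 then g (Pi.single i 1) else 0))
      (∑ i, g (Pi.single i 1)) :=
    hasSum_sum fun i _ => hasSum_ite_eq (Pi.single i 1) (g (Pi.single i 1))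
  have h3 : Summable (fun v : Fin r → ℕ => if 2 ≤ ∑ i, v i then g v else 0) := by
    refine Summable.of_nonneg_of_le (fun v => ?_) (fun v => ?_) hs
    · split_ifs
      · exact h0 v
      · exact le_refl _
    · split_ifs
      · exact le_refl _
      · exact h0 v
  have h4 := (h1.add h2).add h3.hasSum
  have h5 : HasSum g (g 0 + ∑ i, g (Pi.single i 1) + ∑' v, (if 2 ≤ ∑ i, v i then g v else 0)) := by
    refine h4.congr_fun ?_
    intro v
    exact decomp g v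
  exact h5.tsum_eq

/-- the local factor -/
def EE {r : ℕ} (lam : ℕ → (Fin r → ℕ) → ℝ) (s : Fin r → ℝ) (p : ℕ) : ℝ :=
  ∑' v : Fin r → ℕ, lam p v * (p : ℝ) ^ (-(∑ i, s i * (v i : ℝ)))

lemma pw_le {r : ℕ} {s : Fin r → ℝ} (hs : ∀ i, 0 ≤ s i) {p : ℕ} (hp : p.Prime) (v : Fin r → ℕ) :
    0 < (p : ℝ) ^ (-(∑ i, s i * (v i : ℝ))) ∧ (p : ℝ) ^ (-(∑ i, s i * (v i : ℝ))) ≤ 1 := by
  have h0 : (0:ℝ) < p := by exact_mod_cast hp.pos
  have h1 : (1:ℝ) ≤ p := by exact_mod_cast hp.one_lt.le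
  refine ⟨Real.rpow_pos_of_pos h0 _, ?_⟩
  refine Real.rpow_le_one_of_one_le_of_nonpos h1 ?_
  have : 0 ≤ ∑ i, s i * (v i : ℝ) := sum_nonneg fun i _ => mul_nonneg (hs i) (Nat.cast_nonneg _)
  linarith

lemma EE_summable {r : ℕ} {m : Fin r → ℕ} {lam : ℕ → (Fin r → ℕ) → ℝ} (H : LW r m lam)
    {s : Fin r → ℝ} (hs : ∀ i, 0 ≤ s i) {p : ℕ} (hp : p.Prime) :
    Summable (fun v : Fin r → ℕ => lam p v * (p : ℝ) ^ (-(∑ i, s i * (v i : ℝ)))) := by
  refine Summable.of_nonneg_of_le (fun v => mul_nonneg (H.nonneg p hp v) (pw_le hs hp v).1.le)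
    (fun v => mul_le_of_le_one_right (H.nonneg p hp v) (pw_le hs hp v).2) (H.sum p hp)

lemma EE_expand {r : ℕ} {m : Fin r → ℕ} {lam : ℕ → (Fin r → ℕ) → ℝ} (H : LW r m lam) :
    ∃ B : ℝ, 0 ≤ B ∧ ∀ s : Fin r → ℝ, (∀ i, 0 ≤ s i) → ∀ p : ℕ, p.Prime →
      ∃ R : ℝ, 0 ≤ R ∧ R ≤ B * (1 / (p:ℝ)) ^ 2 ∧
      EE lam s p = 1 + ∑ i, lam p (Pi.single i 1) * (p : ℝ) ^ (-(s i)) + R := by
  obtain ⟨C, hC⟩ := H.second
  refine ⟨|C|, abs_nonneg C, fun s hs p hp => ?_⟩
  have hg0 : ∀ v : Fin r → ℕ, 0 ≤ lam p v * (p : ℝ) ^ (-(∑ i, s i * (v i : ℝ))) :=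
    fun v => mul_nonneg (H.nonneg p hp v) (pw_le hs hp v).1.le
  have hsum := EE_summable H hs hp
  refine ⟨∑' v : Fin r → ℕ, (if 2 ≤ ∑ i, v i then
    lam p v * (p : ℝ) ^ (-(∑ i, s i * (v i : ℝ))) else 0), ?_, ?_, ?_⟩
  · refine tsum_nonneg fun v => ?_
    split_ifs
    · exact hg0 v
    · exact le_refl _
  · have h1 : ∑' v : Fin r → ℕ, (if 2 ≤ ∑ i, v i then
        lam p v * (p : ℝ) ^ (-(∑ i, s i * (v i : ℝ))) else 0) ≤
        ∑' v : Fin r → ℕ, (if 2 ≤ ∑ i, v i then lam p v else 0) := by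
      refine Summable.tsum_le_tsum (fun v => ?_) ?_ ?_
      · split_ifs
        · exact mul_le_of_le_one_right (H.nonneg p hp v) (pw_le hs hp v).2
        · exact le_refl _
      · refine Summable.of_nonneg_of_le (fun v => ?_) (fun v => ?_) hsum
        · split_ifs
          · exact hg0 v
          · exact le_refl _
        · split_ifs
          · exact le_refl _
          · exact hg0 v
      · refine Summable.of_nonneg_of_le (fun v => ?_) (fun v => ?_) (H.sum p hp)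
        · split_ifs
          · exact H.nonneg p hp v
          · exact le_refl _
        · split_ifs
          · exact le_refl _
          · exact H.nonneg p hp v
    refine (h1.trans (hC p hp)).trans ?_
    rw [one_div, inv_pow, ← div_eq_mul_inv]
    exact div_le_div_of_nonneg_right (le_abs_self C) (by positivity)
  · unfold EE
    rw [tsum_decomp _ hg0 hsum]
    have e0 : lam p 0 * (p : ℝ) ^ (-(∑ i, s i * (((0 : Fin r → ℕ) i : ℕ) : ℝ))) = 1 := by
      rw [H.zero p hp]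
      simp
    have e1 : ∀ i, lam p (Pi.single i 1) *
        (p : ℝ) ^ (-(∑ j, s j * (((Pi.single i 1 : Fin r → ℕ) j : ℕ) : ℝ))) =
        lam p (Pi.single i 1) * (p : ℝ) ^ (-(s i)) := by
      intro i
      congr 3
      rw [Finset.sum_eq_single i]
      · rw [Pi.single_eq_same]; simp
      · intro j _ hj
        rw [Pi.single_eq_of_ne hj]; simp
      · intro h; exact absurd (mem_univ i) h
    rw [e0, Finset.sum_congr rfl fun i _ => e1 i]

/-- logarithm of the corrected local factor -/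
def uu {r : ℕ} (m : Fin r → ℕ) (lam : ℕ → (Fin r → ℕ) → ℝ) (s : Fin r → ℝ) (p : ℕ) : ℝ :=
  Real.log (EE lam s p) + ∑ i, (m i : ℝ) * Real.log (1 - (p:ℝ) ^ (-1 - s i))

lemma EE_ge_one {r : ℕ} {m : Fin r → ℕ} {lam : ℕ → (Fin r → ℕ) → ℝ} (H : LW r m lam)
    {s : Fin r → ℝ} (hs : ∀ i, 0 ≤ s i) {p : ℕ} (hp : p.Prime) : 1 ≤ EE lam s p := by
  obtain ⟨B, hB, h⟩ := EE_expand H
  obtain ⟨R, hR0, hR1, hR⟩ := h s hs p hp
  rw [hR]
  have : 0 ≤ ∑ i, lam p (Pi.single i 1) * (p : ℝ) ^ (-(s i)) :=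
    sum_nonneg fun i _ => mul_nonneg (H.nonneg p hp _) (by positivity)
  linarith

lemma uu_bound {r : ℕ} {m : Fin r → ℕ} {lam : ℕ → (Fin r → ℕ) → ℝ} (H : LW r m lam) :
    ∃ K : ℝ, ∀ s : Fin r → ℝ, (∀ i, 0 ≤ s i) → ∀ p : ℕ, p.Prime →
      |uu m lam s p| ≤ K * (1 / (p:ℝ)) ^ 2 := by
  obtain ⟨B, hB, hexp⟩ := EE_expand H
  obtain ⟨A', hA'⟩ := H.first
  set A := |A'| with hAdef
  have hA0 : 0 ≤ A := abs_nonneg _
  set M : ℝ := ∑ i, (m i : ℝ) with hM
  have hM0 : 0 ≤ M := sum_nonneg fun i _ => Nat.cast_nonneg _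
  refine ⟨(M + r * A + B) ^ 2 + B + r * A + 2 * M, fun s hs p hp => ?_⟩
  obtain ⟨R, hR0, hR1, hR⟩ := hexp s hs p hp
  have hp' := inv_prime hp
  set y := 1 / (p:ℝ) with hy
  have h0 : (0:ℝ) < p := by exact_mod_cast hp.pos
  have hpp : ∀ i, (p:ℝ) ^ (-(s i)) ≤ 1 := fun i =>
    Real.rpow_le_one_of_one_le_of_nonpos (by exact_mod_cast hp.one_lt.le) (by linarith [hs i])
  have hpp0 : ∀ i, 0 < (p:ℝ) ^ (-(s i)) := fun i => by positivity
  have hfirst : ∀ i, |lam p (Pi.single i 1) - (m i : ℝ) / p| ≤ A * y ^ 2 := by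
    intro i
    refine (hA' p hp i).trans ?_
    rw [hy, one_div, inv_pow, ← div_eq_mul_inv]
    exact div_le_div_of_nonneg_right (le_abs_self A') (by positivity)
  have hlam0 : ∀ i, 0 ≤ lam p (Pi.single i 1) := fun i => H.nonneg p hp _
  have hyy : y ^ 2 ≤ y := by nlinarith [hp'.1, hp'.2]
  have hlam1 : ∀ i, lam p (Pi.single i 1) ≤ ((m i : ℝ) + A) * y := by
    intro i
    have h1 := (abs_le.mp (hfirst i)).2
    have h2 : (m i : ℝ) / p = m i * y := by rw [hy]; ring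
    have h3 : A * y ^ 2 ≤ A * y := mul_le_mul_of_nonneg_left hyy hA0
    rw [h2] at h1
    linarith
  have hS0 : 0 ≤ ∑ i, lam p (Pi.single i 1) * (p : ℝ) ^ (-(s i)) :=
    sum_nonneg fun i _ => mul_nonneg (hlam0 i) (hpp0 i).le
  have hS1 : ∑ i, lam p (Pi.single i 1) * (p : ℝ) ^ (-(s i)) ≤ (M + r * A) * y := by
    have h1 : ∑ i, lam p (Pi.single i 1) * (p : ℝ) ^ (-(s i)) ≤ ∑ i, ((m i : ℝ) + A) * y := by
      refine sum_le_sum fun i _ => ?_
      exact (mul_le_of_le_one_right (hlam0 i) (hpp i)).trans (hlam1 i)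
    refine h1.trans (le_of_eq ?_)
    rw [← sum_mul, sum_add_distrib, sum_const, card_univ, Fintype.card_fin, nsmul_eq_mul]
  set S := ∑ i, lam p (Pi.single i 1) * (p : ℝ) ^ (-(s i)) with hSdef
  set x := S + R with hx
  have hx0 : 0 ≤ x := add_nonneg hS0 hR0
  have hx1 : x ≤ (M + r * A + B) * y := by
    have e2 : B * y ^ 2 ≤ B * y := mul_le_mul_of_nonneg_left hyy hB
    rw [hx]
    linarith
  have h1 : EE lam s p = 1 + x := by rw [hR, hx]; ring
  have hlog := log_bd hx0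
  have e3 : uu m lam s p = (Real.log (1 + x) - x) + R +
      ∑ i, (lam p (Pi.single i 1) - (m i : ℝ) / p) * (p : ℝ) ^ (-(s i)) +
      ∑ i, (m i : ℝ) * (Real.log (1 - (p:ℝ) ^ (-1 - s i)) + (p:ℝ) ^ (-1 - s i)) := by
    unfold uu
    rw [h1]
    simp only [mul_add, sub_mul, sum_add_distrib, sum_sub_distrib]
    have e4 : ∑ i, (m i : ℝ) * (p:ℝ) ^ (-1 - s i) = ∑ i, (m i : ℝ) / p * (p : ℝ) ^ (-(s i)) := by
      refine sum_congr rfl fun i _ => ?_
      rw [(rpow_term hp (hs i)).2.2]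
      ring
    rw [e4, hx, ← hSdef]
    ring
  rw [e3]
  have e5 : |∑ i, (m i : ℝ) * (Real.log (1 - (p:ℝ) ^ (-1 - s i)) + (p:ℝ) ^ (-1 - s i))| ≤
      2 * M * y ^ 2 := by
    refine (abs_sum_le_sum_abs _ _).trans ?_
    have : ∀ i ∈ (univ : Finset (Fin r)),
        |(m i : ℝ) * (Real.log (1 - (p:ℝ) ^ (-1 - s i)) + (p:ℝ) ^ (-1 - s i))| ≤
        (m i : ℝ) * (2 * y ^ 2) := by
      intro i _
      have h2 := rpow_term hp (hs i)
      rw [abs_mul, abs_of_nonneg (Nat.cast_nonneg (m i) : (0:ℝ) ≤ m i)]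
      refine mul_le_mul_of_nonneg_left ?_ (Nat.cast_nonneg _)
      refine (log_bd' h2.1.le (h2.2.1.trans hp'.2)).trans ?_
      have h3 : ((p:ℝ) ^ (-1 - s i)) ^ 2 ≤ y ^ 2 := pow_le_pow_left₀ h2.1.le h2.2.1 2
      linarith
    refine (sum_le_sum this).trans (le_of_eq ?_)
    rw [← sum_mul, hM]
    ring
  have e6 : |∑ i, (lam p (Pi.single i 1) - (m i : ℝ) / p) * (p : ℝ) ^ (-(s i))| ≤
      r * A * y ^ 2 := by
    refine (abs_sum_le_sum_abs _ _).trans ?_
    have : ∀ i ∈ (univ : Finset (Fin r)),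
        |(lam p (Pi.single i 1) - (m i : ℝ) / p) * (p : ℝ) ^ (-(s i))| ≤ A * y ^ 2 := by
      intro i _
      rw [abs_mul, abs_of_pos (hpp0 i)]
      exact (mul_le_of_le_one_right (abs_nonneg _) (hpp i)).trans (hfirst i)
    refine (sum_le_sum this).trans (le_of_eq ?_)
    rw [sum_const, card_univ, Fintype.card_fin, nsmul_eq_mul]
    ring
  have e7 : x ^ 2 ≤ (M + r * A + B) ^ 2 * y ^ 2 := by
    rw [← mul_pow]
    exact pow_le_pow_left₀ hx0 hx1 2
  have e8 : |R| ≤ B * y ^ 2 := by rw [abs_of_nonneg hR0]; exact hR1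
  have e9 := abs_add_le ((Real.log (1 + x) - x) + R +
      ∑ i, (lam p (Pi.single i 1) - (m i : ℝ) / p) * (p : ℝ) ^ (-(s i)))
      (∑ i, (m i : ℝ) * (Real.log (1 - (p:ℝ) ^ (-1 - s i)) + (p:ℝ) ^ (-1 - s i)))
  have e10 := abs_add_le ((Real.log (1 + x) - x) + R)
      (∑ i, (lam p (Pi.single i 1) - (m i : ℝ) / p) * (p : ℝ) ^ (-(s i)))
  have e11 := abs_add_le (Real.log (1 + x) - x) R
  have e12 : ((M + r * A + B) ^ 2 + B + r * A + 2 * M) * y ^ 2 =
      (M + r * A + B) ^ 2 * y ^ 2 + B * y ^ 2 + r * A * y ^ 2 + 2 * M * y ^ 2 := by ring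
  rw [e12]
  linarith

lemma EE_tendsto {β : Type*} (l : Filter β) {r : ℕ} {m : Fin r → ℕ}
    {lam : ℕ → (Fin r → ℕ) → ℝ} (H : LW r m lam) (s : β → Fin r → ℝ) (s0 : Fin r → ℝ)
    (h : ∀ i, Tendsto (fun b => s b i) l (𝓝 (s0 i))) (hs : ∀ᶠ b in l, ∀ i, 0 ≤ s b i) {p : ℕ}
    (hp : p.Prime) :
    Tendsto (fun b => EE lam (s b) p) l (𝓝 (EE lam s0 p)) := by
  unfold EE
  have h0 : (p:ℝ) ≠ 0 := by exact_mod_cast hp.ne_zero
  refine tendsto_tsum_of_dominated_convergence (bound := fun v => lam p v) (H.sum p hp)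
    (fun v => ?_) ?_
  · refine Tendsto.const_mul _ ?_
    refine Tendsto.rpow tendsto_const_nhds ?_ (Or.inl h0)
    refine Tendsto.neg ?_
    exact tendsto_finsetSum _ fun i _ => (h i).mul_const _
  · filter_upwards [hs] with b hb v
    rw [Real.norm_of_nonneg (mul_nonneg (H.nonneg p hp v) (pw_le hb hp v).1.le)]
    exact mul_le_of_le_one_right (H.nonneg p hp v) (pw_le hb hp v).2

lemma uu_tendsto {β : Type*} (l : Filter β) {r : ℕ} {m : Fin r → ℕ}
    {lam : ℕ → (Fin r → ℕ) → ℝ} (H : LW r m lam) (s : β → Fin r → ℝ) (s0 : Fin r → ℝ)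
    (hs0 : ∀ i, 0 ≤ s0 i)
    (h : ∀ i, Tendsto (fun b => s b i) l (𝓝 (s0 i))) (hs : ∀ᶠ b in l, ∀ i, 0 ≤ s b i) {p : ℕ}
    (hp : p.Prime) :
    Tendsto (fun b => uu m lam (s b) p) l (𝓝 (uu m lam s0 p)) := by
  unfold uu
  have h1 := EE_ge_one H hs0 hp
  refine ((EE_tendsto l H s s0 h hs hp).log (by linarith)).add ?_
  refine tendsto_finsetSum _ fun i _ => Tendsto.const_mul _ ?_
  have h2 := rpow_term hp (hs0 i)
  have h3 := (inv_prime hp).2
  have hp0 : (p:ℝ) ≠ 0 := by exact_mod_cast hp.ne_zero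
  refine Tendsto.log ?_ (by linarith)
  refine Tendsto.const_sub _ ?_
  exact Tendsto.rpow tendsto_const_nhds ((h i).const_sub _) (Or.inl hp0)

lemma uu_tsum_tendsto {β : Type*} (l : Filter β) {r : ℕ} {m : Fin r → ℕ}
    {lam : ℕ → (Fin r → ℕ) → ℝ} (H : LW r m lam) (s : β → Fin r → ℝ) (s0 : Fin r → ℝ)
    (hs0 : ∀ i, 0 ≤ s0 i)
    (h : ∀ i, Tendsto (fun b => s b i) l (𝓝 (s0 i))) (hs : ∀ᶠ b in l, ∀ i, 0 ≤ s b i) :
    Tendsto (fun b => ∑' p : Nat.Primes, uu m lam (s b) p) l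
      (𝓝 (∑' p : Nat.Primes, uu m lam s0 p)) := by
  obtain ⟨K, hK⟩ := uu_bound H
  refine tendsto_tsum_of_dominated_convergence
    (bound := fun p : Nat.Primes => K * (1 / ((p:ℕ):ℝ)) ^ 2)
    (primes_summable.mul_left _) (fun p => uu_tendsto l H s s0 hs0 h hs p.2) ?_
  filter_upwards [hs] with b hb p
  exact hK _ hb p p.2

lemma exp_uu {r : ℕ} {m : Fin r → ℕ} {lam : ℕ → (Fin r → ℕ) → ℝ} (H : LW r m lam)
    {s : Fin r → ℝ} (hs : ∀ i, 0 ≤ s i) {p : ℕ} (hp : p.Prime) :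
    Real.exp (uu m lam s p) = EE lam s p * ∏ i, (1 - (p:ℝ) ^ (-1 - s i)) ^ (m i : ℝ) := by
  unfold uu
  rw [Real.exp_add, Real.exp_log (by linarith [EE_ge_one H hs hp]), Real.exp_sum]
  congr 1
  refine prod_congr rfl fun i _ => ?_
  have h1 := rpow_term hp (hs i)
  have h2 := (inv_prime hp).2
  have h3 : 0 < 1 - (p:ℝ) ^ (-1 - s i) := by linarith
  rw [Real.rpow_def_of_pos h3, mul_comm]

lemma uu_hasProd {r : ℕ} {m : Fin r → ℕ} {lam : ℕ → (Fin r → ℕ) → ℝ} (H : LW r m lam)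
    {s : Fin r → ℝ} (hs : ∀ i, 0 ≤ s i) :
    HasProd (fun p : Nat.Primes => EE lam s p * ∏ i, (1 - ((p:ℕ):ℝ) ^ (-1 - s i)) ^ (m i : ℝ))
      (Real.exp (∑' p : Nat.Primes, uu m lam s p)) := by
  obtain ⟨K, hK⟩ := uu_bound H
  have h : ∀ p : Nat.Primes, Real.log (EE lam s p *
      ∏ i, (1 - ((p:ℕ):ℝ) ^ (-1 - s i)) ^ (m i : ℝ)) = uu m lam s p := by
    intro p
    rw [← exp_uu H hs p.2, Real.log_exp]
  refine Real.hasProd_of_hasSum_log (fun p => ?_) ?_
  · rw [← exp_uu H hs p.2]; positivity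
  · simp only [h]
    exact (Summable.of_norm_bounded (primes_summable.mul_left K) fun p => hK _ hs p p.2).hasSum

lemma EE_tprod {r : ℕ} {m : Fin r → ℕ} {lam : ℕ → (Fin r → ℕ) → ℝ} (H : LW r m lam)
    {s : Fin r → ℝ} (hs : ∀ i, 0 < s i) :
    HasProd (fun p : Nat.Primes => EE lam s p)
      (Real.exp (∑' p : Nat.Primes, uu m lam s p) * ∏ i, Zr (s i) ^ (m i : ℝ)) := by
  have hs0' : ∀ i, 0 ≤ s i := fun i => (hs i).le
  have h2 := uu_hasProd H hs0'
  have h3 : HasProd (fun p : Nat.Primes => ∏ i, ((1 - ((p:ℕ):ℝ) ^ (-1 - s i))⁻¹) ^ (m i : ℝ))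
      (∏ i, Zr (s i) ^ (m i : ℝ)) := by
    refine hasProd_prod fun i _ => ?_
    refine HasProd.rpow (Zr_hasProd (hs i)) (fun p => ?_) (Zr_pos (hs i)) _
    have h1 := rpow_term p.2 (hs0' i)
    have h2 := (inv_prime p.2).2
    have : 0 ≤ 1 - ((p:ℕ):ℝ) ^ (-1 - s i) := by linarith
    positivity
  have h4 := h2.mul h3
  refine h4.congr_fun ?_
  intro p
  rw [mul_assoc, ← prod_mul_distrib]
  have : ∏ i, (1 - ((p:ℕ):ℝ) ^ (-1 - s i)) ^ (m i : ℝ) *
      ((1 - ((p:ℕ):ℝ) ^ (-1 - s i))⁻¹) ^ (m i : ℝ) = 1 := by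
    apply prod_eq_one
    intro i _
    have h1 := rpow_term p.2 (hs0' i)
    have h2 := (inv_prime p.2).2
    have h3 : 0 < 1 - ((p:ℕ):ℝ) ^ (-1 - s i) := by linarith
    rw [← Real.mul_rpow h3.le (by positivity), mul_inv_cancel₀ h3.ne', Real.one_rpow]
  rw [this, mul_one]

lemma zero_factor {r : ℕ} (m : Fin r → ℕ) (lam : ℕ → (Fin r → ℕ) → ℝ) {p : ℕ} (hp : p.Prime) :
    EE lam 0 p * ∏ i : Fin r, (1 - (p:ℝ) ^ (-1 - (0 : Fin r → ℝ) i)) ^ (m i : ℝ) =
    (1 - 1 / (p : ℝ)) ^ (∑ i, m i) * ∑' v : Fin r → ℕ, lam p v := by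
  rw [mul_comm]
  congr 1
  · simp only [Pi.zero_apply, sub_zero, Real.rpow_neg_one, Real.rpow_natCast]
    rw [← one_div, Finset.prod_pow_eq_pow_sum]
  · unfold EE
    refine tsum_congr fun v => ?_
    simp

set_option linter.unusedVariables false in
theorem mw_prod_lim {r : ℕ} (hr : 0 < r) (m : Fin r → ℕ) (lam : ℕ → (Fin r → ℕ) → ℝ)
    (H : LW r m lam) (s : Fin r → ℝ) (hs : ∀ i, 0 < s i) :
    Multipliable (fun p : Nat.Primes =>
      (1 - 1 / (p : ℝ)) ^ (∑ i, m i) * ∑' v : Fin r → ℕ, lam p v) ∧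
    Tendsto (fun L : ℝ => (∏' p : Nat.Primes, ∑' v : Fin r → ℕ,
        lam p v * (p : ℝ) ^ (-(∑ i, s i / L * (v i : ℝ)))) / L ^ ((∑ i, m i : ℕ) : ℝ)) atTop
      (𝓝 ((∏' p : Nat.Primes, ((1 - 1 / (p : ℝ)) ^ (∑ i, m i) * ∑' v : Fin r → ℕ, lam p v)) *
        ∏ i, (s i) ^ (-(m i : ℝ)))) := by
  have hz : HasProd (fun p : Nat.Primes =>
      (1 - 1 / (p : ℝ)) ^ (∑ i, m i) * ∑' v : Fin r → ℕ, lam p v)
      (Real.exp (∑' p : Nat.Primes, uu m lam 0 p)) := by
    refine (uu_hasProd H (s := 0) (fun i => le_refl _)).congr_fun ?_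
    intro p
    exact (zero_factor m lam p.2).symm
  refine ⟨hz.multipliable, ?_⟩
  rw [hz.tprod_eq]
  have h1 := uu_tsum_tendsto atTop H (fun (L : ℝ) i => s i / L) 0 (fun i => le_refl _)
    (fun i => tendsto_const_nhds.div_atTop tendsto_id) (by
      filter_upwards [eventually_gt_atTop 0] with L hL i
      exact (div_pos (hs i) hL).le)
  have h2 := h1.rexp
  have h3 : Tendsto (fun L : ℝ => ∏ i, (Zr (s i / L) / L) ^ (m i : ℝ)) atTop
      (𝓝 (∏ i, (s i)⁻¹ ^ (m i : ℝ))) := by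
    refine tendsto_finsetProd _ fun i _ => ?_
    exact (Zr_tendsto (hs i)).rpow_const (Or.inl (inv_ne_zero (hs i).ne'))
  have h4 := h2.mul h3
  have e1 : ∏ i, (s i)⁻¹ ^ (m i : ℝ) = ∏ i, (s i) ^ (-(m i : ℝ)) := by
    refine prod_congr rfl fun i _ => ?_
    rw [Real.rpow_neg (hs i).le, Real.inv_rpow (hs i).le]
  rw [e1] at h4
  refine h4.congr' ?_
  filter_upwards [eventually_gt_atTop 0] with L hL
  have h5 := EE_tprod H (s := fun i => s i / L) (fun i => div_pos (hs i) hL)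
  have h6 : (∏' p : Nat.Primes, ∑' v : Fin r → ℕ,
        lam p v * (p : ℝ) ^ (-(∑ i, s i / L * (v i : ℝ)))) =
      Real.exp (∑' p : Nat.Primes, uu m lam (fun i => s i / L) p) *
        ∏ i, Zr (s i / L) ^ (m i : ℝ) := h5.tprod_eq
  rw [h6, mul_div_assoc]
  congr 1
  have e2 : L ^ ((∑ i, m i : ℕ) : ℝ) = ∏ i, L ^ (m i : ℝ) := by
    rw [← Real.rpow_sum_of_pos hL]
    congr 1
    push_cast
    rfl
  rw [e2, ← prod_div_distrib]
  refine prod_congr rfl fun i _ => ?_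
  rw [Real.div_rpow (Zr_pos (div_pos (hs i) hL)).le hL.le]

end

end Pool.Agent.H403R2.EMMB
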