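import Pool.Agent.H297R2.LG.Defs
import Pool.Agent.H382P.Many

/-! Large gaps: continuity of the parameters, pointwise bounds (part of task 14, LOCAL). -/

open Complex Filter Topology Set MeasureTheory

namespace LG

open SG (hh nn dd dl ord NZ zmult)
open SP (RHs ZZ mu wt Mk Par Eb PS chi qq tt)

namespace LocAux

open SP.ManyAux

/-! ### continuity in the parameters -/

theorem param_cont (P : Par) (m : ℕ) :
    Continuous (fun x : ℝ × ℝ => ∫ u in (0 : ℝ)..1, P.b m u * Real.sin (Real.pi * x.1 * u) *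
      Real.exp (-(u * x.2) ^ 2 / 2)) := by
  have hb : Continuous (P.b m) := (P.hb m).continuous
  apply intervalIntegral.continuous_parametric_intervalIntegral_of_continuous'
  unfold Function.uncurry
  fun_prop

theorem sm_eq (P : Par) (A c : ℝ) (m : ℕ) : sm P A c m =
    ∫ u in (0 : ℝ)..1, P.b m u * Real.sin (Real.pi * (c, 1 / A).1 * u) *
      Real.exp (-(u * (c, 1 / A).2) ^ 2 / 2) := by
  unfold sm
  simp only [mul_one_div]

theorem sm0_eq (P : Par) (c : ℝ) (m : ℕ) : sm0 P c m =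
    ∫ u in (0 : ℝ)..1, P.b m u * Real.sin (Real.pi * (c, (0 : ℝ)).1 * u) *
      Real.exp (-(u * (c, (0 : ℝ)).2) ^ 2 / 2) := by
  unfold sm0
  simp

theorem choose_params (P : Par) (B0 : ℕ) (r : ℝ) (F q : ℕ → ℝ) (c : ℝ)
    (hstrict : c * SF B0 F q < SF B0 F q +
      4 * r / Real.pi * ∑ m ∈ Finset.Icc 2 B0, sm0 P c m * SM B0 F q m) :
    ∃ η δ A1 : ℝ, 0 < η ∧ 0 < δ ∧ 0 < A1 ∧ ∀ A : ℝ, A1 ≤ A →
      (c + 2 * η) * SF B0 F q + 3 * δ ≤ SF B0 F q +
        4 * r / Real.pi * ∑ m ∈ Finset.Icc 2 B0, sm P A (c + 2 * η) m * SM B0 F q m := by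
  set Ψ : ℝ × ℝ → ℝ := fun x => SF B0 F q + 4 * r / Real.pi * ∑ m ∈ Finset.Icc 2 B0,
    (∫ u in (0 : ℝ)..1, P.b m u * Real.sin (Real.pi * x.1 * u) *
      Real.exp (-(u * x.2) ^ 2 / 2)) * SM B0 F q m - x.1 * SF B0 F q with hΨ
  have hc : Continuous Ψ := by
    rw [hΨ]
    apply Continuous.sub
    · apply Continuous.add continuous_const
      apply Continuous.mul continuous_const
      apply continuous_finsetSum
      intro m _
      exact (param_cont P m).mul continuous_const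
    · fun_prop
  have h0 : 0 < Ψ (c, 0) := by
    have : Ψ (c, 0) = SF B0 F q + 4 * r / Real.pi * ∑ m ∈ Finset.Icc 2 B0,
      sm0 P c m * SM B0 F q m - c * SF B0 F q := by
      simp only [hΨ, sm0_eq]
    rw [this]
    linarith
  have hev : ∀ᶠ x in 𝓝 ((c, 0) : ℝ × ℝ), Ψ (c, 0) / 2 < Ψ x :=
    hc.continuousAt.eventually (lt_mem_nhds (by linarith))
  rw [Metric.eventually_nhds_iff] at hev
  obtain ⟨ρ, hρ, hev⟩ := hev
  refine ⟨ρ / 4, Ψ (c, 0) / 6, 4 / ρ, by positivity, by positivity, by positivity, fun A hA => ?_⟩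
  have hA0 : 0 < A := lt_of_lt_of_le (by positivity) hA
  have h1 : dist ((c + 2 * (ρ / 4), 1 / A) : ℝ × ℝ) (c, 0) < ρ := by
    rw [Prod.dist_eq, Real.dist_eq, Real.dist_eq]
    simp only
    apply max_lt
    · rw [show c + 2 * (ρ / 4) - c = ρ / 2 by ring, abs_of_pos (by positivity)]
      linarith
    · rw [sub_zero, abs_of_pos (by positivity)]
      rw [div_le_iff₀ hρ] at hA
      rw [div_lt_iff₀ hA0]
      linarith
  have h2 := hev h1
  have h3 : Ψ (c + 2 * (ρ / 4), 1 / A) = SF B0 F q + 4 * r / Real.pi * ∑ m ∈ Finset.Icc 2 B0,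
      sm P A (c + 2 * (ρ / 4)) m * SM B0 F q m - (c + 2 * (ρ / 4)) * SF B0 F q := by
    simp only [hΨ, sm_eq]
  rw [h3] at h2
  linarith

/-! ### the smoothed counting function -/

theorem Zs_eq (A c T t : ℝ) (hT : 1 ≤ T) : Zs A c T t = ∑ s ∈ (ZZ_finite T hT).toFinset,
    (mu s : ℝ) * Real.exp (-(s.im - t) ^ 2 / 2) * gK A c (Real.log T * (s.im - t)) :=
  finsum_mem_eq_finite_toFinset_sum _ (ZZ_finite T hT)

theorem Zs_cont (A c T : ℝ) (hT : 1 ≤ T) (hg : Continuous (gK A c)) :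
    Continuous (fun t => Zs A c T t) := by
  have h : (fun t => Zs A c T t) = fun t => ∑ s ∈ (ZZ_finite T hT).toFinset,
    (mu s : ℝ) * Real.exp (-(s.im - t) ^ 2 / 2) * gK A c (Real.log T * (s.im - t)) := by
    funext t
    exact Zs_eq A c T t hT
  rw [h]
  apply continuous_finsetSum
  intro s _
  apply Continuous.mul
  · fun_prop
  · exact hg.comp (by fun_prop)

theorem Zs_nonneg (A c T t : ℝ) (hT : 1 ≤ T) (hg : ∀ x, 0 ≤ gK A c x) : 0 ≤ Zs A c T t := by
  rw [Zs_eq A c T t hT]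
  apply Finset.sum_nonneg
  intro s _
  have := hg (Real.log T * (s.im - t))
  positivity

/-- a zero near `t` makes `Zs` large -/
theorem Zs_ge {A c T t R e : ℝ} (hT : 1 ≤ T) (hL : 1 ≤ Real.log T) (_hR : 0 < R) (he : 0 < e) (he1 : e < 1)
    (hLR : R ^ 2 / (2 * e) ≤ Real.log T) (hg : ∀ x, 0 ≤ gK A c x)
    (hge : ∀ x : ℝ, |x| ≤ R → 1 - e ≤ gK A c x)
    {s : ℂ} (hs : s ∈ ZZ T) (hst : |s.im - t| ≤ R / Real.log T) : 1 - 2 * e ≤ Zs A c T t := by
  have hL0 : 0 < Real.log T := by linarith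
  rw [Zs_eq A c T t hT]
  have h1 : (mu s : ℝ) * Real.exp (-(s.im - t) ^ 2 / 2) * gK A c (Real.log T * (s.im - t)) ≤
      ∑ s ∈ (ZZ_finite T hT).toFinset,
      (mu s : ℝ) * Real.exp (-(s.im - t) ^ 2 / 2) * gK A c (Real.log T * (s.im - t)) := by
    refine Finset.single_le_sum (f := fun s : ℂ => (mu s : ℝ) * Real.exp (-(s.im - t) ^ 2 / 2) *
      gK A c (Real.log T * (s.im - t))) (fun z _ => ?_) (by rw [Set.Finite.mem_toFinset]; exact hs)
    have := hg (Real.log T * (z.im - t))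
    positivity
  refine le_trans ?_ h1
  have hmu : (1 : ℝ) ≤ (mu s : ℝ) := by
    obtain ⟨a1, a2, a3, a4, a5⟩ := hs
    have : 1 ≤ zmult s := SG.zmult_pos (by linarith) a5
    exact_mod_cast this
  have hx : |Real.log T * (s.im - t)| ≤ R := by
    rw [abs_mul, abs_of_pos hL0]
    rw [le_div_iff₀ hL0] at hst
    linarith
  have h2 := hge _ hx
  have h3 : 1 - e ≤ Real.exp (-(s.im - t) ^ 2 / 2) := by
    have h4 : (s.im - t) ^ 2 ≤ (R / Real.log T) ^ 2 := by
      rw [← sq_abs (s.im - t)]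
      exact pow_le_pow_left₀ (abs_nonneg _) hst 2
    have h5 : (R / Real.log T) ^ 2 ≤ 2 * e := by
      rw [div_pow, div_le_iff₀ (by positivity)]
      rw [div_le_iff₀ (by positivity)] at hLR
      nlinarith
    have h6 := Real.add_one_le_exp (-(s.im - t) ^ 2 / 2)
    linarith
  have h7 : 0 < 1 - e := by linarith
  calc 1 - 2 * e ≤ 1 * (1 - e) * (1 - e) := by nlinarith [sq_nonneg e]
    _ ≤ (mu s : ℝ) * Real.exp (-(s.im - t) ^ 2 / 2) * gK A c (Real.log T * (s.im - t)) := by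
      gcongr

theorem EE_cont (P : Par) (B0 : ℕ) (r : ℝ) (F : ℕ → ℝ) (T : ℝ) :
    Continuous (fun t => EE P B0 r F T t) := by
  unfold EE
  apply continuous_finsetSum
  intro q _
  fun_prop

/-- the pointwise inequality -/
theorem pointwise2 {E g Z e B : ℝ} (he : 0 < e) (_hE : 0 ≤ E) (hg : 0 ≤ g) (hZ : 0 ≤ Z) (hB : 0 ≤ B)
    (h : 1 ≤ g * Z ∨ 1 ≤ B) :
    E ^ 2 * (1 - g * Z) ≤ e * E ^ 4 + 1 / (4 * e) * B := by
  have h1 : 0 ≤ e * E ^ 4 := by positivity
  have h2 : 0 ≤ 1 / (4 * e) * B := by positivity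
  rcases h with h | h
  · have : E ^ 2 * (1 - g * Z) ≤ 0 := mul_nonpos_of_nonneg_of_nonpos (by positivity) (by linarith)
    linarith
  · have h3 : E ^ 2 * (1 - g * Z) ≤ E ^ 2 := by
      have : 0 ≤ E ^ 2 * (g * Z) := by positivity
      nlinarith
    have h4 : E ^ 2 ≤ e * E ^ 4 + 1 / (4 * e) := by
      have h5 : 0 ≤ e * (E ^ 2 - 1 / (2 * e)) ^ 2 := by positivity
      have h6 : e * (E ^ 2 - 1 / (2 * e)) ^ 2 = e * E ^ 4 - E ^ 2 + 1 / (4 * e) := by
        field_simp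
        ring
      linarith
    have h7 : 1 / (4 * e) ≤ 1 / (4 * e) * B := le_mul_of_one_le_right (by positivity) h
    linarith

theorem dd_ge_one {κ T : ℝ} (hT : 1 ≤ T) (hκ : κ < 1 / 2) : 1 ≤ dd κ T := by
  unfold dd
  exact Real.one_le_rpow hT (by linarith)

/-- shifted weight -/
theorem wt_shift (t0 D t d : ℝ) : wt t0 D t = wt (t0 + d) D (t + d) := by
  unfold wt
  congr 1
  ring

theorem int_shift (t0 D V1 V2 d : ℝ) (G : ℝ → ℝ) :
    ∫ t in V1..V2, wt t0 D t * G (t + d) = ∫ t in (V1 + d)..(V2 + d), wt (t0 + d) D t * G t := by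
  rw [← intervalIntegral.integral_comp_add_right (fun t => wt (t0 + d) D t * G t) d]
  apply intervalIntegral.integral_congr
  intro t _
  simp only
  rw [wt_shift t0 D t d]

end LocAux

end LG
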