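import Pool.Agent.H403R2.LGLocalA
import Pool.Agent.H403R2.LGLocalB
import Pool.Agent.H503R2.LG.Ker

/-! Large gaps, task 14 (LOCAL): many large gaps in every window.  `LOCAL_of` takes the conclusions of
MEAN, COMB1, COMB2, MOM and GAPTAIL as hypotheses. -/

open Complex Filter Topology Set MeasureTheory

namespace LG

open SG (hh nn dd dl ord NZ zmult)
open SP (RHs ZZ mu wt Mk Par Eb PS chi qq tt)

namespace LocAux

open SP.ManyAux

/-- lower bound for the difference of the mean values -/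
theorem mean_lower (P : Par) (B0 : ℕ) (r : ℝ) (F q : ℕ → ℝ) (A c δ e1 : ℝ)
    (hMEAN : ∃ C T0 : ℝ, 0 < C ∧ 10 ≤ T0 ∧ ∀ T : ℝ, T0 ≤ T →
      ∀ t0 : ℝ, 11 / 10 * T ≤ t0 → t0 ≤ 19 / 10 * T →
      |(∫ t in (T + 2 * Real.log T)..(2 * T - 2 * Real.log T),
          wt t0 (dd P.κ T) t * ‖EE P B0 r F T t‖ ^ 2) -
        Real.sqrt (2 * Real.pi) * dd P.κ T * Cn P B0 r F T 1| ≤
        C * dd P.κ T / Real.log T * (1 + |Cn P B0 r F T 1|) ∧
      |(∫ t in (T + 2 * Real.log T)..(2 * T - 2 * Real.log T),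
          wt t0 (dd P.κ T) t * ‖EE P B0 r F T t‖ ^ 2 * Zs A c T t) -
        Real.sqrt (2 * Real.pi) * dd P.κ T * (c * Cn P B0 r F T 1 -
          (2 / Real.log T) * ∑' n : ℕ, lk A c T n * Cn P B0 r F T n)| ≤
        C * dd P.κ T / Real.log T * (1 + |Cn P B0 r F T 1|))
    (hCOMB1 : Tendsto (fun T : ℝ => Cn P B0 r F T 1) atTop (𝓝 (SF B0 F q ^ 2)))
    (hCOMB2 : Tendsto (fun T : ℝ => (2 / Real.log T) * ∑' n : ℕ, lk A c T n * Cn P B0 r F T n) atTop
      (𝓝 (4 * r / Real.pi * (SF B0 F q * ∑ m ∈ Finset.Icc 2 B0, sm P A c m * SM B0 F q m))))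
    (hSF : 0 < SF B0 F q) (hδ : 0 < δ) (he1 : 0 < e1) (he1' : e1 ≤ 1 / 4)
    (hδe : 2 * e1 * SF B0 F q ≤ δ)
    (hst : c * SF B0 F q + 3 * δ ≤ SF B0 F q +
        4 * r / Real.pi * ∑ m ∈ Finset.Icc 2 B0, sm P A c m * SM B0 F q m) :
    ∃ T0 : ℝ, 10 ≤ T0 ∧ ∀ T : ℝ, T0 ≤ T → ∀ t0 : ℝ, 11 / 10 * T ≤ t0 → t0 ≤ 19 / 10 * T →
      SF B0 F q * δ * dd P.κ T ≤
      (∫ t in (T + 2 * Real.log T)..(2 * T - 2 * Real.log T),
        wt t0 (dd P.κ T) t * ‖EE P B0 r F T t‖ ^ 2) -
      1 / (1 - 2 * e1) * ∫ t in (T + 2 * Real.log T)..(2 * T - 2 * Real.log T),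
        wt t0 (dd P.κ T) t * ‖EE P B0 r F T t‖ ^ 2 * Zs A c T t := by
  obtain ⟨C, TM, hC, hTM, hM⟩ := hMEAN
  have l1 := hCOMB1
  have l2 := hCOMB2
  set S := SF B0 F q with hS
  set U1 := ∑ m ∈ Finset.Icc 2 B0, sm P A c m * SM B0 F q m with hU1
  set g := 1 / (1 - 2 * e1) with hg
  have hg0 : 0 < 1 - 2 * e1 := by linarith
  have hg1 : 1 ≤ g := by rw [hg, le_div_iff₀ hg0]; linarith
  have hgm : g * (1 - 2 * e1) = 1 := by rw [hg]; field_simp
  set s := Real.sqrt (2 * Real.pi) with hs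
  have hs2 : 2 ≤ s := two_le_sqrt_two_pi
  have l3 : Tendsto (fun T : ℝ => 1 / Real.log T) atTop (𝓝 0) := by
    refine Real.tendsto_log_atTop.inv_tendsto_atTop.congr (fun T => ?_)
    simp [one_div]
  set X : ℝ → ℝ := fun T => (2 / Real.log T) * ∑' n : ℕ, lk A c T n * Cn P B0 r F T n with hX
  have l4 : Tendsto (fun T : ℝ => s * (Cn P B0 r F T 1 - g * (c * Cn P B0 r F T 1 - X T)) -
      (1 + g) * C * (1 / Real.log T) * (1 + |Cn P B0 r F T 1|)) atTop
      (𝓝 (s * (S ^ 2 - g * (c * S ^ 2 - 4 * r / Real.pi * (S * U1))) -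
      (1 + g) * C * 0 * (1 + |S ^ 2|))) := by
    apply Tendsto.sub
    · exact (l1.sub (((l1.const_mul c).sub l2).const_mul g)).const_mul s
    · exact (l3.const_mul ((1 + g) * C)).mul (l1.abs.const_add 1)
  have hlim : S * δ < s * (S ^ 2 - g * (c * S ^ 2 - 4 * r / Real.pi * (S * U1))) -
      (1 + g) * C * 0 * (1 + |S ^ 2|) := by
    have e0 : s * (S ^ 2 - g * (c * S ^ 2 - 4 * r / Real.pi * (S * U1))) -
      (1 + g) * C * 0 * (1 + |S ^ 2|) = s * (S * (S - g * (c * S - 4 * r / Real.pi * U1))) := by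
      ring
    rw [e0]
    have e2 : c * S - 4 * r / Real.pi * U1 ≤ S - 3 * δ := by linarith
    have e3 : g * (c * S - 4 * r / Real.pi * U1) ≤ g * (S - 3 * δ) :=
      mul_le_mul_of_nonneg_left e2 (by linarith)
    have e4 : 2 * δ ≤ S - g * (S - 3 * δ) := by
      have e5 : S - g * (S - 3 * δ) = g * ((1 - 2 * e1) * S - S + 3 * δ) := by
        have : S = g * (1 - 2 * e1) * S := by rw [hgm, one_mul]
        calc S - g * (S - 3 * δ) = g * (1 - 2 * e1) * S - g * (S - 3 * δ) := by rw [← this]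
          _ = _ := by ring
      rw [e5]
      have e6 : 2 * δ ≤ (1 - 2 * e1) * S - S + 3 * δ := by linarith
      nlinarith
    have e7 : 2 * δ ≤ S - g * (c * S - 4 * r / Real.pi * U1) := by linarith
    have e8 : S * (2 * δ) ≤ S * (S - g * (c * S - 4 * r / Real.pi * U1)) :=
      mul_le_mul_of_nonneg_left e7 hSF.le
    have e9 : 2 * (S * (2 * δ)) ≤ s * (S * (S - g * (c * S - 4 * r / Real.pi * U1))) :=
      mul_le_mul hs2 e8 (by positivity) (by linarith)
    have e10 : 0 < S * δ := by positivity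
    linarith
  obtain ⟨T1, hT1⟩ := (l4.eventually (lt_mem_nhds hlim)).exists_forall_of_atTop
  refine ⟨max TM T1, hTM.trans (le_max_left _ _), fun T hT t0 ht0 ht1 => ?_⟩
  have hTM' : TM ≤ T := (le_max_left _ _).trans hT
  have h1 := hT1 T ((le_max_right _ _).trans hT)
  obtain ⟨h2, h3⟩ := hM T hTM' t0 ht0 ht1
  have hT10 : 10 ≤ T := hTM.trans hTM'
  have hL0 : 0 < Real.log T := Real.log_pos (by linarith)
  have hΔ1 := dd_ge_one (κ := P.κ) (by linarith : 1 ≤ T) P.hκ1
  have hΔ0 : 0 < dd P.κ T := by linarith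
  have h4 := (abs_le.mp h2).1
  have h5 := (abs_le.mp h3).2
  have h6 := mul_le_mul_of_nonneg_left h5 (by linarith : 0 ≤ g)
  have h7 := mul_lt_mul_of_pos_left h1 hΔ0
  have h8 : X T = (2 / Real.log T) * ∑' n : ℕ, lk A c T n * Cn P B0 r F T n := rfl
  have h9 : dd P.κ T * (s * (Cn P B0 r F T 1 - g * (c * Cn P B0 r F T 1 - X T)) -
      (1 + g) * C * (1 / Real.log T) * (1 + |Cn P B0 r F T 1|)) =
      s * dd P.κ T * Cn P B0 r F T 1 - g * (s * dd P.κ T * (c * Cn P B0 r F T 1 - X T)) -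
      (C * dd P.κ T / Real.log T * (1 + |Cn P B0 r F T 1|) +
        g * (C * dd P.κ T / Real.log T * (1 + |Cn P B0 r F T 1|))) := by ring
  rw [h9, h8] at h7
  rw [mul_sub] at h6
  linarith

end LocAux

open LocAux SP.ManyAux in
/-- **many large gaps near every `t0`** -/
theorem LOCAL_of (P : Par) (B0 : ℕ) (r : ℝ) (F q : ℕ → ℝ)
    (hMEAN : ∀ A c : ℝ, 0 < A → 0 < c → ∃ C T0 : ℝ, 0 < C ∧ 10 ≤ T0 ∧ ∀ T : ℝ, T0 ≤ T →
      ∀ t0 : ℝ, 11 / 10 * T ≤ t0 → t0 ≤ 19 / 10 * T →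
      |(∫ t in (T + 2 * Real.log T)..(2 * T - 2 * Real.log T),
          wt t0 (dd P.κ T) t * ‖EE P B0 r F T t‖ ^ 2) -
        Real.sqrt (2 * Real.pi) * dd P.κ T * Cn P B0 r F T 1| ≤
        C * dd P.κ T / Real.log T * (1 + |Cn P B0 r F T 1|) ∧
      |(∫ t in (T + 2 * Real.log T)..(2 * T - 2 * Real.log T),
          wt t0 (dd P.κ T) t * ‖EE P B0 r F T t‖ ^ 2 * Zs A c T t) -
        Real.sqrt (2 * Real.pi) * dd P.κ T * (c * Cn P B0 r F T 1 -
          (2 / Real.log T) * ∑' n : ℕ, lk A c T n * Cn P B0 r F T n)| ≤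
        C * dd P.κ T / Real.log T * (1 + |Cn P B0 r F T 1|))
    (hCOMB1 : Tendsto (fun T : ℝ => Cn P B0 r F T 1) atTop (𝓝 (SF B0 F q ^ 2)))
    (hCOMB2 : ∀ A c : ℝ, 0 < A → 0 < c →
      Tendsto (fun T : ℝ => (2 / Real.log T) * ∑' n : ℕ, lk A c T n * Cn P B0 r F T n) atTop
      (𝓝 (4 * r / Real.pi * (SF B0 F q * ∑ m ∈ Finset.Icc 2 B0, sm P A c m * SM B0 F q m))))
    (hMOM : ∃ C T0 : ℝ, 0 < C ∧ 10 ≤ T0 ∧ ∀ T : ℝ, T0 ≤ T → ∀ t0 : ℝ,
      ∫ t in (T + 2 * Real.log T)..(2 * T - 2 * Real.log T),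
        wt t0 (dd P.κ T) t * ‖EE P B0 r F T t‖ ^ 4 ≤ C * dd P.κ T)
    (hGAPTAIL : ∀ ε : ℝ, 0 < ε → ∃ X T0 : ℝ, 1 ≤ X ∧ 10 ≤ T0 ∧ ∀ T : ℝ, T0 ≤ T →
      ∃ G : ℝ → ℝ, Continuous G ∧ (∀ t, 0 ≤ G t) ∧
      (∀ t : ℝ, T + Real.log T ≤ t → t ≤ 2 * T - Real.log T →
        (∀ s ∈ ZZ T, X / Real.log T < |s.im - t|) → 1 ≤ G t) ∧
      ∀ t0 V1 V2 : ℝ, V1 ≤ V2 → T + Real.log T ≤ V1 → V2 ≤ 2 * T - Real.log T →
        ∫ t in V1..V2, wt t0 (dd P.κ T) t * G t ≤ ε * dd P.κ T)
    (c : ℝ) (hc : 0 < c) (hSF : 0 < SF B0 F q)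
    (hstrict : c * SF B0 F q < SF B0 F q +
      4 * r / Real.pi * ∑ m ∈ Finset.Icc 2 B0, sm0 P c m * SM B0 F q m) :
    ∃ η ε K T0 : ℝ, 0 < η ∧ 0 < ε ∧ 1 ≤ K ∧ 10 ≤ T0 ∧ ∀ T : ℝ, T0 ≤ T →
    ∀ t0 : ℝ, 11 / 10 * T ≤ t0 → t0 ≤ 19 / 10 * T →
    ε * dd P.κ T * Real.log T ≤ ({n : ℕ | 1 ≤ n ∧ |ord n - t0| ≤ K * dd P.κ T ∧
      2 * Real.pi * (c + η) / Real.log T < ord (n + 1) - ord n}.ncard : ℝ) := by
  classical
  have hpi := Real.pi_pos
  obtain ⟨η, δ, A1, hη, hδ, hA1, hpar⟩ := choose_params P B0 r F q c hstrict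
  set S0 := SF B0 F q with hS0
  -- the smoothing parameters
  set e1 := min (1 / 4) (δ / (2 * S0)) with he1
  have he10 : 0 < e1 := by rw [he1]; exact lt_min (by norm_num) (by positivity)
  have he14 : e1 ≤ 1 / 4 := min_le_left _ _
  have he1S : 2 * e1 * S0 ≤ δ := by
    have : e1 ≤ δ / (2 * S0) := min_le_right _ _
    rw [le_div_iff₀ (by positivity)] at this
    linarith
  have hc1 : 0 < c + 2 * η := by linarith
  obtain ⟨A0, hA0, hge⟩ := gK_ge (c + η) (c + 2 * η) e1 (by linarith) (by linarith) he10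
  set A := max A0 A1 with hA
  have hApos : 0 < A := lt_of_lt_of_le hA0 (le_max_left _ _)
  have hst := hpar A (le_max_right _ _)
  have hge' := hge A (le_max_left _ _)
  have hg0 : ∀ x, 0 ≤ gK A (c + 2 * η) x := fun x => (gK_bounds A (c + 2 * η) x hApos hc1).1
  have hgc : Continuous (gK A (c + 2 * η)) := gK_continuous A (c + 2 * η)
  obtain ⟨TA, hTA, hlow⟩ := mean_lower P B0 r F q A (c + 2 * η) δ e1
    (hMEAN A (c + 2 * η) hApos hc1) hCOMB1 (hCOMB2 A (c + 2 * η) hApos hc1) hSF hδ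
    he10 he14 he1S hst
  set ρ := S0 * δ with hρ
  have hρ0 : 0 < ρ := by positivity
  obtain ⟨C4, TF, hC4, hTF, hmom⟩ := hMOM
  set e := ρ / (4 * C4) with he
  have he0 : 0 < e := by positivity
  have heC : e * C4 = ρ / 4 := by rw [he]; field_simp
  obtain ⟨X, TG, hX, hTG, hG⟩ := hGAPTAIL (ρ * e / 2) (by positivity)
  have hX0 : 0 < X := by linarith
  obtain ⟨M, hM0, hMe⟩ := exists_M (ρ * e / 6) (by positivity)
  obtain ⟨TN, hTN⟩ := NZ_pos_large
  set g := 1 / (1 - 2 * e1) with hgdef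
  have hg1 : 0 < 1 - 2 * e1 := by linarith
  have hgpos : 0 < g := by positivity
  -- largeness of `T`
  set R := Real.pi * (c + η) with hR
  have hR0 : 0 < R := by positivity
  obtain ⟨T1, hT1⟩ := (Real.tendsto_log_atTop.eventually_ge_atTop
    (max (max 1 (R ^ 2 / (2 * e1))) (max (4 * X) R))).exists_forall_of_atTop
  obtain ⟨T2, hT2⟩ := (Real.isLittleO_log_id_atTop.bound
    (by norm_num : (0 : ℝ) < 1 / 4)).exists_forall_of_atTop
  refine ⟨η, ρ * e / (4 * X), M + 1, max (max TA TF) (max (max TG TN) (max T1 T2)), hη,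
    by positivity, by linarith, hTA.trans ((le_max_left _ _).trans (le_max_left _ _)), ?_⟩
  intro T hT t0 ht0 ht1
  simp only [max_le_iff] at hT
  obtain ⟨⟨eA, eF⟩, ⟨eG, eN⟩, e1', e2'⟩ := hT
  have hT10 : 10 ≤ T := hTA.trans eA
  have hTone : 1 ≤ T := by linarith
  have hTpos : 0 < T := by linarith
  have hLB := hT1 T e1'
  simp only [max_le_iff] at hLB
  obtain ⟨⟨hL1, hLR⟩, hLX, hLR2⟩ := hLB
  obtain ⟨G, hGc, hGn, hGone, hGint⟩ := hG T eG
  have hlowT := hlow T eA t0 ht0 ht1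
  have hmomT := hmom T eF t0
  set L := Real.log T with hL
  have hL0 : 0 < L := by linarith
  have hLT : 4 * L ≤ T := by
    have := hT2 T e2'
    simp only [id, Real.norm_eq_abs] at this
    rw [abs_of_pos hTpos] at this
    have h := le_abs_self (Real.log T)
    rw [← hL] at h this
    linarith
  set Δ := dd P.κ T with hΔ
  have hΔ1 : 1 ≤ Δ := dd_ge_one hTone P.hκ1
  have hΔ0 : 0 < Δ := by linarith
  set V1 := T + 2 * L with hV1
  set V2 := 2 * T - 2 * L with hV2
  have hV : V1 ≤ V2 := by rw [hV1, hV2]; linarith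
  set w : ℝ → ℝ := wt t0 Δ with hw
  have hw0 : ∀ t, 0 ≤ w t := fun t => wt_nonneg _ _ _
  have hw1 : ∀ t, w t ≤ 1 := fun t => wt_le_one _ _ _
  have hwc : Continuous w := wt_cont _ _
  set En : ℝ → ℝ := fun t => ‖EE P B0 r F T t‖ with hEn
  have hEc : Continuous En := (EE_cont P B0 r F T).norm
  set Z : ℝ → ℝ := fun t => Zs A (c + 2 * η) T t with hZ
  have hZc : Continuous Z := Zs_cont A (c + 2 * η) T hTone hgc
  have hZ0 : ∀ t, 0 ≤ Z t := fun t => Zs_nonneg A (c + 2 * η) T t hTone hg0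
  set d := X / L with hd
  have hd0 : 0 < d := by positivity
  have hd1 : 4 * d ≤ 1 := by
    rw [hd, mul_div_assoc', div_le_one hL0]; exact hLX
  have hdL : d ≤ L := by linarith
  -- the index set
  have hfin : {n : ℕ | 1 ≤ n ∧ |ord n - t0| ≤ (M + 1) * Δ ∧
      2 * Real.pi * (c + η) / L < ord (n + 1) - ord n}.Finite :=
    (idx_finite t0 ((M + 1) * Δ)).subset (fun n hn => ⟨hn.1, hn.2.1⟩)
  set N := hfin.toFinset with hN
  have hcard : {n : ℕ | 1 ≤ n ∧ |ord n - t0| ≤ (M + 1) * Δ ∧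
      2 * Real.pi * (c + η) / L < ord (n + 1) - ord n}.ncard = N.card :=
    Set.ncard_eq_toFinset_card _ hfin
  rw [hcard]
  set N' := N.filter (fun n => ord (n + 1) - ord n ≤ 4 * d) with hN'
  have hN'm : ∀ n ∈ N', 1 ≤ n ∧ ord (n + 1) - ord n ≤ 4 * d := by
    intro n hn
    rw [hN', Finset.mem_filter, hN, Set.Finite.mem_toFinset] at hn
    exact ⟨hn.1.1, hn.2⟩
  set S : ℝ → ℝ := fun t => ∑ n ∈ N',
    (Set.Icc (ord n) (ord (n + 1))).indicator (fun _ => (1 : ℝ)) t with hSdef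
  have hSn : ∀ t, 0 ≤ S t := fun t =>
    Finset.sum_nonneg (fun n _ => Set.indicator_nonneg (fun _ _ => zero_le_one) t)
  have hSi : ∀ n ∈ N', IntervalIntegrable (fun t => (Set.Icc (ord n)
      (ord (n + 1))).indicator (fun _ => (1 : ℝ)) t) volume V1 V2 := fun n hn =>
    (ind_int (ord n) (ord (n + 1)) V1 V2 (SG.ord_mono (hN'm n hn).1 (by omega)) hV).1
  have iS : IntervalIntegrable S volume V1 V2 := by
    have h1 := IntervalIntegrable.sum N' hSi
    have h2 : (∑ n ∈ N', (fun t => (Set.Icc (ord n)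
      (ord (n + 1))).indicator (fun _ => (1 : ℝ)) t)) = S := by
      funext t
      rw [Finset.sum_apply]
    rw [← h2]
    exact h1
  have I4 : ∫ t in V1..V2, S t ≤ N.card * (4 * d) := by
    rw [hSdef, intervalIntegral.integral_finsetSum hSi]
    calc _ ≤ ∑ n ∈ N', (4 * d) := by
          apply Finset.sum_le_sum
          intro n hn
          exact ((ind_int (ord n) (ord (n + 1)) V1 V2 (SG.ord_mono (hN'm n hn).1 (by omega)) hV).2).trans
            (hN'm n hn).2
      _ = N'.card * (4 * d) := by rw [Finset.sum_const, nsmul_eq_mul]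
      _ ≤ N.card * (4 * d) := by
          have : (N'.card : ℝ) ≤ N.card := by exact_mod_cast Finset.card_filter_le _ _
          exact mul_le_mul_of_nonneg_right this (by positivity)
  -- pointwise bound
  have hpt : ∀ t ∈ Set.Icc V1 V2, w t * En t ^ 2 - g * (w t * En t ^ 2 * Z t) ≤
      e * (w t * En t ^ 4) + 1 / (4 * e) * S t + 1 / (4 * e) * (w t * G (t + d)) +
      1 / (4 * e) * (w t * G (t + (-d))) +
      1 / (4 * e) * Real.exp (-M ^ 2 / 4) * wt t0 (2 * Δ) t := by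
    intro t ht
    have htV1 : T + 2 * L ≤ t := ht.1
    have htV2 : t ≤ 2 * T - 2 * L := ht.2
    have hE0 : 0 ≤ Real.exp (-M ^ 2 / 4) * wt t0 (2 * Δ) t :=
      mul_nonneg (Real.exp_pos _).le (wt_nonneg _ _ _)
    have hwG1 : 0 ≤ w t * G (t + d) := mul_nonneg (hw0 t) (hGn _)
    have hwG2 : 0 ≤ w t * G (t + (-d)) := mul_nonneg (hw0 t) (hGn _)
    set b1 : ℝ := if (∀ s ∈ ZZ T, R / L < |s.im - t|) then 1 else 0 with hb1
    have hb10 : 0 ≤ b1 := by rw [hb1]; split_ifs <;> norm_num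
    have hdich : 1 ≤ g * Z t ∨ 1 ≤ b1 := by
      by_cases hno : ∀ s ∈ ZZ T, R / L < |s.im - t|
      · right
        rw [hb1, if_pos hno]
      · left
        push Not at hno
        obtain ⟨s, hs, hst'⟩ := hno
        have h1 := Zs_ge (A := A) (c := c + 2 * η) hTone hL1 hR0 he10 (by linarith) hLR hg0
          hge' hs hst'
        have h2 : g * (1 - 2 * e1) = 1 := by rw [hgdef]; field_simp
        calc (1 : ℝ) = g * (1 - 2 * e1) := h2.symm
          _ ≤ g * Z t := mul_le_mul_of_nonneg_left h1 hgpos.le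
    have h1 := pointwise2 (E := En t) (g := g) (Z := Z t) he0 (norm_nonneg _) hgpos.le (hZ0 t)
      hb10 hdich
    have h2 := mul_le_mul_of_nonneg_left h1 (hw0 t)
    have h3 : w t * b1 ≤ S t + w t * G (t + d) + w t * G (t + (-d)) +
        Real.exp (-M ^ 2 / 4) * wt t0 (2 * Δ) t := by
      by_cases hno : ∀ s ∈ ZZ T, R / L < |s.im - t|
      · have hb : b1 = 1 := by rw [hb1, if_pos hno]
        rw [hb, mul_one]
        have hRL : 0 < R / L := by positivity
        have hRL1 : R / L ≤ 1 := by rw [div_le_one hL0]; exact hLR2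
        have hNt : 1 ≤ NZ t := hTN t (by linarith)
        obtain ⟨g1, g2, g3, g4⟩ := gap_dich (X := d) hTone hNt hRL (by linarith) (by linarith) hno
        rcases g4 with g4 | g4 | g4
        · by_cases hn0 : |ord (NZ t) - t0| ≤ (M + 1) * Δ
          · have hnN : NZ t ∈ N' := by
              rw [hN', Finset.mem_filter, hN, Set.Finite.mem_toFinset]
              refine ⟨⟨hNt, hn0, ?_⟩, g4⟩
              have : 2 * Real.pi * (c + η) / L = 2 * (R / L) := by rw [hR]; ring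
              rw [this]
              exact g1
            have h7 : (1 : ℝ) ≤ S t := by
              have h8 : (Set.Icc (ord (NZ t)) (ord (NZ t + 1))).indicator
                  (fun _ => (1 : ℝ)) t = 1 := by
                apply Set.indicator_of_mem
                exact ⟨g2, g3⟩
              rw [← h8]
              exact Finset.single_le_sum (f := fun n =>
                (Set.Icc (ord n) (ord (n + 1))).indicator (fun _ => (1 : ℝ)) t)
                (fun n _ => Set.indicator_nonneg (fun _ _ => zero_le_one) t) hnN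
            linarith [hw1 t]
          · push Not at hn0
            have h7 : M * Δ ≤ |t - t0| := by
              have h8 : |ord (NZ t) - t0| ≤ |ord (NZ t) - t| + |t - t0| := by
                have := abs_add_le (ord (NZ t) - t) (t - t0)
                simpa using this
              have h9 : |ord (NZ t) - t| ≤ Δ := by
                rw [abs_of_nonpos (by linarith)]
                linarith
              nlinarith
            have := wt_tail t0 Δ t M hΔ0 hM0 h7
            linarith [hSn t]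
        · have h8 := hGone (t + d) (by linarith) (by linarith) g4
          have h9 : w t ≤ w t * G (t + d) := le_mul_of_one_le_right (hw0 t) h8
          linarith [hSn t]
        · have h8 := hGone (t + (-d)) (by linarith) (by linarith) (by
            intro s hs
            have := g4 s hs
            rwa [sub_eq_add_neg t d] at this)
          have h9 : w t ≤ w t * G (t + (-d)) := le_mul_of_one_le_right (hw0 t) h8
          linarith [hSn t]
      · have hb : b1 = 0 := by rw [hb1, if_neg hno]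
        rw [hb, mul_zero]
        linarith [hSn t]
    have h4 : 1 / (4 * e) * (w t * b1) ≤ 1 / (4 * e) * (S t + w t * G (t + d) +
        w t * G (t + (-d)) + Real.exp (-M ^ 2 / 4) * wt t0 (2 * Δ) t) :=
      mul_le_mul_of_nonneg_left h3 (by positivity)
    have e3 : w t * En t ^ 2 - g * (w t * En t ^ 2 * Z t) = w t * (En t ^ 2 * (1 - g * Z t)) := by
      ring
    rw [e3]
    refine h2.trans ?_
    have e4 : w t * (e * En t ^ 4 + 1 / (4 * e) * b1) =
        e * (w t * En t ^ 4) + 1 / (4 * e) * (w t * b1) := by ring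
    rw [e4]
    linarith
  -- integrability
  have i0 : IntervalIntegrable (fun t => w t * En t ^ 2) volume V1 V2 :=
    (hwc.mul (hEc.pow 2)).intervalIntegrable _ _
  have i0' : IntervalIntegrable (fun t => w t * En t ^ 2 * Z t) volume V1 V2 :=
    ((hwc.mul (hEc.pow 2)).mul hZc).intervalIntegrable _ _
  have i2 : IntervalIntegrable (fun t => w t * En t ^ 4) volume V1 V2 :=
    (hwc.mul (hEc.pow 4)).intervalIntegrable _ _
  have i5 : IntervalIntegrable (fun t => wt t0 (2 * Δ) t) volume V1 V2 :=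
    (wt_cont _ _).intervalIntegrable _ _
  have iG : ∀ x : ℝ, IntervalIntegrable (fun t => w t * G (t + x)) volume V1 V2 := fun x =>
    (hwc.mul (hGc.comp (continuous_id.add continuous_const))).intervalIntegrable _ _
  -- the integrals
  have I5 : ∫ t in V1..V2, wt t0 (2 * Δ) t ≤ 6 * Δ := by
    have h1 := wt_int t0 (2 * Δ) V1 V2 (by positivity) hV
    have h2 : Real.sqrt (2 * Real.pi) * (2 * Δ) ≤ 3 * (2 * Δ) :=
      mul_le_mul_of_nonneg_right sqrt_two_pi_le (by positivity)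
    linarith
  have IG : ∀ x : ℝ, |x| ≤ L → ∫ t in V1..V2, w t * G (t + x) ≤ ρ * e / 2 * Δ := by
    intro x hx
    rw [hw, int_shift]
    rw [abs_le] at hx
    exact hGint (t0 + x) (V1 + x) (V2 + x) (by linarith) (by linarith) (by linarith)
  have IG1 := IG d (by rw [abs_of_pos hd0]; exact hdL)
  have IG2 := IG (-d) (by rw [abs_neg, abs_of_pos hd0]; exact hdL)
  have hint := intervalIntegral.integral_mono_on hV (i0.sub (i0'.const_mul g))
    (((((i2.const_mul e).add (iS.const_mul (1 / (4 * e)))).add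
      ((iG d).const_mul (1 / (4 * e)))).add ((iG (-d)).const_mul (1 / (4 * e)))).add
      (i5.const_mul (1 / (4 * e) * Real.exp (-M ^ 2 / 4)))) hpt
  rw [intervalIntegral.integral_sub i0 (i0'.const_mul g),
    intervalIntegral.integral_add
    ((((i2.const_mul e).add (iS.const_mul (1 / (4 * e)))).add
      ((iG d).const_mul (1 / (4 * e)))).add ((iG (-d)).const_mul (1 / (4 * e))))
      (i5.const_mul (1 / (4 * e) * Real.exp (-M ^ 2 / 4))),
    intervalIntegral.integral_add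
    (((i2.const_mul e).add (iS.const_mul (1 / (4 * e)))).add
      ((iG d).const_mul (1 / (4 * e)))) ((iG (-d)).const_mul (1 / (4 * e))),
    intervalIntegral.integral_add
    ((i2.const_mul e).add (iS.const_mul (1 / (4 * e)))) ((iG d).const_mul (1 / (4 * e))),
    intervalIntegral.integral_add (i2.const_mul e) (iS.const_mul (1 / (4 * e))),
    intervalIntegral.integral_const_mul, intervalIntegral.integral_const_mul,
    intervalIntegral.integral_const_mul, intervalIntegral.integral_const_mul,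
    intervalIntegral.integral_const_mul, intervalIntegral.integral_const_mul] at hint
  have hlow2 : ρ * Δ ≤ (∫ t in V1..V2, w t * En t ^ 2) - g * ∫ t in V1..V2, w t * En t ^ 2 * Z t :=
    hlowT
  have J2 := mul_le_mul_of_nonneg_left hmomT he0.le
  have J4 := mul_le_mul_of_nonneg_left I4 (by positivity : 0 ≤ 1 / (4 * e))
  have JG1 := mul_le_mul_of_nonneg_left IG1 (by positivity : 0 ≤ 1 / (4 * e))
  have JG2 := mul_le_mul_of_nonneg_left IG2 (by positivity : 0 ≤ 1 / (4 * e))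
  have J5 := mul_le_mul_of_nonneg_left I5
    (by positivity : 0 ≤ 1 / (4 * e) * Real.exp (-M ^ 2 / 4))
  have K5 : 1 / (4 * e) * Real.exp (-M ^ 2 / 4) * (6 * Δ) ≤ ρ / 4 * Δ := by
    calc 1 / (4 * e) * Real.exp (-M ^ 2 / 4) * (6 * Δ) ≤
        1 / (4 * e) * (ρ * e / 6) * (6 * Δ) := by gcongr
      _ = ρ / 4 * Δ := by field_simp
  have KG : 1 / (4 * e) * (ρ * e / 2 * Δ) = ρ / 8 * Δ := by
    field_simp
    ring
  have K2 : e * (C4 * Δ) = ρ / 4 * Δ := by rw [← mul_assoc, heC]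
  rw [KG] at JG1 JG2
  rw [K2] at J2
  have K : ρ / 4 * Δ ≤ 1 / (4 * e) * (N.card * (4 * d)) := by linarith
  have e5 : 1 / (4 * e) * (N.card * (4 * d)) = N.card * X / (e * L) := by
    rw [hd]
    field_simp
  rw [e5, le_div_iff₀ (by positivity)] at K
  have e6 : ρ * e / (4 * X) * Δ * L = (ρ / 4 * Δ * (e * L)) / X := by
    field_simp
  rw [e6, div_le_iff₀ hX0]
  exact K

end LG
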