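import Pool.Agent.H297R2.LG.Defs

/-! Large gaps: bookkeeping lemmas on ordinates of zeros (part of task 14, LOCAL). -/

open Complex Filter Topology Set MeasureTheory

namespace LG

open SG (hh nn dd dl ord NZ zmult)
open SP (RHs ZZ mu wt Mk Par Eb PS chi qq tt)

namespace LocAux

/-- every `ord n` is the ordinate of a zero -/
theorem ord_is_zero {n : ℕ} (hn : 1 ≤ n) :
    ∃ s : ℂ, riemannZeta s = 0 ∧ 0 < s.re ∧ s.re < 1 ∧ s.im = ord n := by
  classical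
  by_contra hcon
  push Not at hcon
  have hfin := SG.ZS_finite (ord n)
  have hlt : ∀ s ∈ hfin.toFinset, s.im < ord n := by
    intro s hs
    rw [Set.Finite.mem_toFinset] at hs
    obtain ⟨h1, h2, h3, h4, h5⟩ := hs
    exact lt_of_le_of_ne h5 (hcon s h1 h2 h3)
  obtain ⟨u, hu, hu2⟩ : ∃ u : ℝ, u < ord n ∧ ∀ s ∈ hfin.toFinset, s.im ≤ u := by
    by_cases hne : hfin.toFinset.Nonempty
    · obtain ⟨s0, hs0, hmax⟩ := hfin.toFinset.exists_max_image (fun s => s.im) hne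
      exact ⟨s0.im, hlt s0 hs0, hmax⟩
    · refine ⟨ord n - 1, by linarith, fun s hs => ?_⟩
      exact absurd ⟨s, hs⟩ hne
  have h1 : NZ (ord n) ≤ NZ u := by
    rw [SG.NZ_eq, SG.NZ_eq]
    apply Finset.sum_le_sum_of_subset
    intro s hs
    have h2 := hu2 s hs
    rw [Set.Finite.mem_toFinset] at hs ⊢
    exact ⟨hs.1, hs.2.1, hs.2.2.1, hs.2.2.2.1, h2⟩
  have h2 := SG.le_NZ_ord hn
  have h3 := (SG.ord_le_iff hn u).mpr (h2.trans h1)
  linarith

theorem mem_ZZ {T : ℝ} {s : ℂ} (h0 : riemannZeta s = 0) (h1 : 0 < s.re) (h2 : s.re < 1)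
    (h3 : T < s.im) (h4 : s.im ≤ 2 * T) : s ∈ ZZ T := ⟨h1, h2, h3, h4, h0⟩

/-- `ord (NZ t) ≤ t < ord (NZ t + 1)` -/
theorem ord_NZ_le {t : ℝ} (h : 1 ≤ NZ t) : ord (NZ t) ≤ t := (SG.ord_le_iff h t).mpr le_rfl

theorem lt_ord_NZ (t : ℝ) : t < ord (NZ t + 1) := by
  by_contra h
  push Not at h
  have := (SG.ord_le_iff (by omega) t).mp h
  omega

theorem between {T t : ℝ} (hT : 1 ≤ T) (h : 1 ≤ NZ t) {s : ℂ} (hs : s ∈ ZZ T) :
    s.im ≤ ord (NZ t) ∨ ord (NZ t + 1) ≤ s.im := by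
  obtain ⟨h1, h2, h3, h4, h5⟩ := hs
  have hpos : 0 < s.im := by linarith
  have hm := SG.zmult_pos hpos h5
  by_cases hst : s.im ≤ t
  · left
    by_contra hlt
    push Not at hlt
    have h6 := SG.jump_one h5 h1 h2 hpos (ord (NZ t)) hlt
    have h7 := SG.le_NZ_ord h
    have h8 := SG.NZ_mono hst
    omega
  · right
    push Not at hst
    have h6 := SG.jump_one h5 h1 h2 hpos t hst
    exact (SG.ord_le_iff (by omega) _).mpr (by omega)

/-- if there is no zero within `ρ` of `t`, then the gap around `t` is larger than `2ρ` -/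
theorem gap_of_noz {T t ρ : ℝ} (_hT : 1 ≤ T) (h : 1 ≤ NZ t) (hρ : 0 < ρ) (h1 : T + ρ < t)
    (h2 : t < 2 * T - ρ) (hno : ∀ s ∈ ZZ T, ρ < |s.im - t|) :
    ord (NZ t) < t - ρ ∧ t + ρ < ord (NZ t + 1) := by
  have ha := ord_NZ_le h
  have hb := lt_ord_NZ t
  constructor
  · by_contra hcon
    push Not at hcon
    obtain ⟨s, s0, s1, s2, s3⟩ := ord_is_zero h
    have := hno s (mem_ZZ s0 s1 s2 (by linarith) (by linarith))
    rw [s3, abs_of_nonpos (by linarith)] at this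
    linarith
  · by_contra hcon
    push Not at hcon
    obtain ⟨s, s0, s1, s2, s3⟩ := ord_is_zero (n := NZ t + 1) (by omega)
    have := hno s (mem_ZZ s0 s1 s2 (by linarith) (by linarith))
    rw [s3, abs_of_pos (by linarith)] at this
    linarith

/-- the dichotomy for very large gaps -/
theorem gap_dich {T t ρ X : ℝ} (hT : 1 ≤ T) (h : 1 ≤ NZ t) (hρ : 0 < ρ) (h1 : T + ρ < t)
    (h2 : t < 2 * T - ρ) (hno : ∀ s ∈ ZZ T, ρ < |s.im - t|) :
    2 * ρ < ord (NZ t + 1) - ord (NZ t) ∧ ord (NZ t) ≤ t ∧ t ≤ ord (NZ t + 1) ∧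
    (ord (NZ t + 1) - ord (NZ t) ≤ 4 * X ∨ (∀ s ∈ ZZ T, X < |s.im - (t + X)|) ∨
      (∀ s ∈ ZZ T, X < |s.im - (t - X)|)) := by
  obtain ⟨ha, hb⟩ := gap_of_noz hT h hρ h1 h2 hno
  refine ⟨by linarith, by linarith, by linarith, ?_⟩
  by_cases hg : ord (NZ t + 1) - ord (NZ t) ≤ 4 * X
  · exact Or.inl hg
  push Not at hg
  right
  by_cases hm : t ≤ (ord (NZ t) + ord (NZ t + 1)) / 2
  · left
    intro s hs
    rw [lt_abs]
    rcases between hT h hs with h3 | h3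
    · right; linarith
    · left; linarith
  · right
    push Not at hm
    intro s hs
    rw [lt_abs]
    rcases between hT h hs with h3 | h3
    · right; linarith
    · left; linarith

/-- `NZ t ≥ 1` for large `t` -/
theorem NZ_pos_large : ∃ T1 : ℝ, ∀ t : ℝ, T1 ≤ t → 1 ≤ NZ t := by
  obtain ⟨T1, hT1⟩ := SG.NZ_unbounded 1
  exact ⟨T1, fun t ht => hT1.trans (SG.NZ_mono ht)⟩

end LocAux

end LG
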