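import Mathlib

/-!
Bernstein's theorem on completely monotone functions, in the form: a completely monotone
function on `(-δ, ∞)` is on `(0, ∞)` a multiple of `w ↦ ∫ x ^ w dν(x)` with `ν` a probability
measure on `[0, 1]`.
-/

set_option autoImplicit false

namespace Pool.Agent.H403R2

open MeasureTheory Filter Topology Set
open scoped unitInterval ENNReal

/-- `G 0, G 1, …` are (up to sign) the successive derivatives of a completely monotone
function on `(-δ, ∞)`. -/
structure CMChain (δ : ℝ) (G : ℕ → ℝ → ℝ) : Prop where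
  nonneg : ∀ n w, -δ < w → 0 ≤ G n w
  deriv : ∀ n w, -δ < w → HasDerivAt (G n) (-G (n + 1) w) w

lemma CMChain.shift {δ : ℝ} {G : ℕ → ℝ → ℝ} (h : CMChain δ G) :
    CMChain δ (fun n => G (n + 1)) where
  nonneg n w hw := h.nonneg (n + 1) w hw
  deriv n w hw := h.deriv (n + 1) w hw

lemma CMChain.anti {δ : ℝ} {G : ℕ → ℝ → ℝ} (h : CMChain δ G) (n : ℕ) {a b : ℝ} (ha : -δ < a)
    (hab : a ≤ b) : G n b ≤ G n a := by
  have hd : ∀ x ∈ Icc a b, HasDerivAt (G n) (-G (n + 1) x) x := fun x hx =>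
    h.deriv n x (ha.trans_le hx.1)
  have := antitoneOn_of_deriv_nonpos (convex_Icc a b) (f := G n)
    (fun x hx => (hd x hx).continuousAt.continuousWithinAt)
    (fun x hx => (hd x (interior_subset hx)).differentiableAt.differentiableWithinAt)
    (fun x hx => by
      rw [(hd x (interior_subset hx)).deriv]
      have := h.nonneg (n + 1) x (ha.trans_le (interior_subset hx).1)
      linarith)
  exact this (left_mem_Icc.mpr hab) (right_mem_Icc.mpr hab) hab

lemma nonneg_of_deriv {f f' : ℝ → ℝ} {b : ℝ} (h0 : 0 ≤ f 0)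
    (hd : ∀ t, 0 ≤ t → t < b → HasDerivAt f (f' t) t)
    (hp : ∀ t, 0 ≤ t → t < b → 0 ≤ f' t) {t : ℝ} (ht0 : 0 ≤ t) (htb : t < b) : 0 ≤ f t := by
  have hd' : ∀ x ∈ Icc 0 t, HasDerivAt f (f' x) x := fun x hx =>
    hd x hx.1 (hx.2.trans_lt htb)
  have := monotoneOn_of_deriv_nonneg (convex_Icc 0 t) (f := f)
    (fun x hx => (hd' x hx).continuousAt.continuousWithinAt)
    (fun x hx => (hd' x (interior_subset hx)).differentiableAt.differentiableWithinAt)
    (fun x hx => by
      rw [(hd' x (interior_subset hx)).deriv]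
      exact hp x (interior_subset hx).1 ((interior_subset hx).2.trans_lt htb))
  exact h0.trans (this (left_mem_Icc.mpr ht0) (right_mem_Icc.mpr ht0) ht0)

/-- Taylor remainder at `l`, evaluated at `l - t`. -/
noncomputable def Rem (G : ℕ → ℝ → ℝ) (l : ℝ) (n : ℕ) (t : ℝ) : ℝ :=
  G 0 (l - t) - ∑ k ∈ Finset.range n, G k l * (t ^ k / (k.factorial : ℝ))

lemma Rem_zero_succ (G : ℕ → ℝ → ℝ) (l : ℝ) (n : ℕ) : Rem G l (n + 1) 0 = 0 := by
  rw [Rem, Finset.sum_range_succ']
  simp

lemma Rem_deriv {δ : ℝ} {G : ℕ → ℝ → ℝ} (h : CMChain δ G) (l : ℝ) (n : ℕ) {t : ℝ}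
    (ht : t < l + δ) :
    HasDerivAt (Rem G l (n + 1)) (Rem (fun n => G (n + 1)) l n t) t := by
  have h1 : HasDerivAt (fun t => G 0 (l - t)) (G 1 (l - t)) t := by
    have h2 := (h.deriv 0 (l - t) (by linarith))
    have h3 : HasDerivAt (fun t => l - t) (-1) t := by
      simpa using (hasDerivAt_id t).const_sub l
    have h4 : HasDerivAt (fun t => G 0 (l - t)) (-G (0 + 1) (l - t) * (-1)) t :=
      HasDerivAt.comp t h2 h3
    simpa using h4
  have h5 : ∀ k ∈ Finset.range (n + 1), HasDerivAt (fun t => G k l * (t ^ k / (k.factorial : ℝ)))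
      (G k l * ((k : ℝ) * t ^ (k - 1) / (k.factorial : ℝ))) t := by
    intro k _
    exact ((hasDerivAt_pow k t).div_const _).const_mul _
  have h6 := HasDerivAt.fun_sum h5
  have h7 : HasDerivAt (Rem G l (n + 1)) (G 1 (l - t) - ∑ k ∈ Finset.range (n + 1),
      (G k l * ((k : ℝ) * t ^ (k - 1) / (k.factorial : ℝ)))) t := h1.sub h6
  convert! h7 using 1
  rw [Rem, Finset.sum_range_succ']
  simp only [Nat.cast_zero, zero_mul, zero_div, mul_zero, add_zero, zero_add, Nat.add_sub_cancel]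
  congr 1
  apply Finset.sum_congr rfl
  intro k _
  rw [Nat.factorial_succ]
  push_cast
  have : (k.factorial : ℝ) ≠ 0 := by positivity
  have : (k : ℝ) + 1 ≠ 0 := by positivity
  field_simp

lemma Rem_nonneg {δ : ℝ} (l : ℝ) (n : ℕ) : ∀ {G : ℕ → ℝ → ℝ}, CMChain δ G → ∀ {t : ℝ}, 0 ≤ t →
    t < l + δ → 0 ≤ Rem G l n t := by
  induction n with
  | zero =>
    intro G h t ht0 ht
    simp only [Rem, Finset.range_zero, Finset.sum_empty, sub_zero]
    exact h.nonneg 0 _ (by linarith)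
  | succ n ih =>
    intro G h t ht0 ht
    exact nonneg_of_deriv (f := Rem G l (n + 1)) (f' := Rem (fun n => G (n + 1)) l n)
      (Rem_zero_succ G l n).ge (fun t _ ht => Rem_deriv h l n ht)
      (fun t ht0 ht => ih h.shift ht0 ht) ht0 ht

lemma Rem_scale {δ : ℝ} (l : ℝ) (n : ℕ) {c : ℝ} (hc0 : 0 ≤ c) (hc1 : c ≤ 1) :
    ∀ {G : ℕ → ℝ → ℝ}, CMChain δ G → ∀ {t : ℝ}, 0 ≤ t →
    t < l + δ → Rem G l n (c * t) ≤ c ^ n * Rem G l n t := by
  induction n with
  | zero =>
    intro G h t ht0 ht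
    simp only [Rem, Finset.range_zero, Finset.sum_empty, sub_zero, pow_zero, one_mul]
    exact h.anti 0 (by linarith) (by nlinarith)
  | succ n ih =>
    intro G h t ht0 ht
    have key : 0 ≤ c ^ (n + 1) * Rem G l (n + 1) t - Rem G l (n + 1) (c * t) := by
      refine nonneg_of_deriv
        (f := fun t => c ^ (n + 1) * Rem G l (n + 1) t - Rem G l (n + 1) (c * t))
        (f' := fun t => c ^ (n + 1) * Rem (fun n => G (n + 1)) l n t -
          Rem (fun n => G (n + 1)) l n (c * t) * c) ?_ ?_ ?_ ht0 ht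
      · simp [Rem_zero_succ]
      · intro t ht0 ht
        have hct : c * t < l + δ := by nlinarith
        have h1 := (Rem_deriv h l n ht).const_mul (c ^ (n + 1))
        have h2 : HasDerivAt (fun t => c * t) c t := by
          simpa using (hasDerivAt_id t).const_mul c
        have h3 : HasDerivAt (fun t => Rem G l (n + 1) (c * t))
            (Rem (fun n => G (n + 1)) l n (c * t) * c) t :=
          HasDerivAt.comp t (Rem_deriv h l n hct) h2
        exact h1.sub h3
      · intro t ht0 ht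
        have := ih h.shift ht0 ht
        have h3 : c ^ (n + 1) * Rem (fun n => G (n + 1)) l n t -
          Rem (fun n => G (n + 1)) l n (c * t) * c = c * (c ^ n * Rem (fun n => G (n + 1)) l n t -
          Rem (fun n => G (n + 1)) l n (c * t)) := by ring
        rw [h3]
        exact mul_nonneg hc0 (by linarith)
    linarith

lemma hasSum_taylor {δ : ℝ} {G : ℕ → ℝ → ℝ} (h : CMChain δ G) {l t : ℝ} (hl : 0 ≤ l) (hδ : 0 < δ)
    (ht0 : 0 ≤ t) (ht : t < l + δ) :
    HasSum (fun k => G k l * (t ^ k / (k.factorial : ℝ))) (G 0 (l - t)) := by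
  have hnn : ∀ k, 0 ≤ G k l * (t ^ k / (k.factorial : ℝ)) := fun k =>
    mul_nonneg (h.nonneg k l (by linarith)) (by positivity)
  rw [hasSum_iff_tendsto_nat_of_nonneg hnn]
  obtain ⟨t', ht1, ht2⟩ := exists_between ht
  have ht'0 : 0 < t' := ht0.trans_lt ht1
  have hc0 : 0 ≤ t / t' := by positivity
  have hc1 : t / t' < 1 := by rw [div_lt_one ht'0]; exact ht1
  have hb : ∀ n, Rem G l n t ≤ (t / t') ^ n * G 0 (l - t') := by
    intro n
    have h1 := Rem_scale l n hc0 hc1.le h ht'0.le ht2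
    rw [div_mul_cancel₀ _ ht'0.ne'] at h1
    refine h1.trans (mul_le_mul_of_nonneg_left ?_ (by positivity))
    rw [Rem]
    have : 0 ≤ ∑ k ∈ Finset.range n, G k l * (t' ^ k / (k.factorial : ℝ)) :=
      Finset.sum_nonneg fun k _ => mul_nonneg (h.nonneg k l (by linarith)) (by positivity)
    linarith
  have hlim : Tendsto (fun n => Rem G l n t) atTop (𝓝 0) := by
    have h0 : Tendsto (fun n : ℕ => (t / t') ^ n * G 0 (l - t')) atTop (𝓝 0) := by
      simpa using (tendsto_pow_atTop_nhds_zero_of_lt_one hc0 hc1).mul_const (G 0 (l - t'))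
    exact squeeze_zero (fun n => Rem_nonneg l n h ht0 ht) hb h0
  have h2 : (fun n => ∑ k ∈ Finset.range n, G k l * (t ^ k / (k.factorial : ℝ))) =
      fun n => G 0 (l - t) - Rem G l n t := by
    funext n; simp [Rem]
  rw [h2]
  simpa using hlim.const_sub (G 0 (l - t))

/-- the elementary kernel estimate -/
lemma kernel_bound {x : ℝ} (hx0 : 0 ≤ x) (hx1 : x ≤ 1) (k : ℕ) :
    |Real.exp (-x * k) - (1 - x) ^ k| ≤ x := by
  have h1 : (1 - x) ^ k ≤ Real.exp (-x * k) := by
    rw [mul_comm, Real.exp_nat_mul]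
    exact pow_le_pow_left₀ (by linarith) (by simpa using Real.one_sub_le_exp_neg x) k
  rw [abs_of_nonneg (by linarith)]
  have h2 : (1 - x) ^ k = Real.exp (-x * k) * ((1 - x) * Real.exp x) ^ k := by
    rw [mul_pow, ← Real.exp_nat_mul]
    have : Real.exp (-x * k) * ((1 - x) ^ k * Real.exp (k * x)) =
      (1 - x) ^ k * (Real.exp (-x * k) * Real.exp (k * x)) := by ring
    rw [this, ← Real.exp_add]
    have : -x * k + k * x = 0 := by ring
    rw [this, Real.exp_zero, mul_one]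
  have h3 : 1 - x ^ 2 ≤ (1 - x) * Real.exp x := by
    have := Real.add_one_le_exp x
    nlinarith
  have h4 : 1 + (k : ℝ) * ((1 - x) * Real.exp x - 1) ≤ ((1 - x) * Real.exp x) ^ k := by
    have h5 : (-2 : ℝ) ≤ (1 - x) * Real.exp x - 1 := by nlinarith
    have := one_add_mul_le_pow h5 k
    simpa using this
  have h6 : 1 - (k : ℝ) * x ^ 2 ≤ ((1 - x) * Real.exp x) ^ k := by
    have : (k : ℝ) * (- x ^ 2) ≤ (k : ℝ) * ((1 - x) * Real.exp x - 1) := by
      apply mul_le_mul_of_nonneg_left _ (Nat.cast_nonneg k)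
      linarith
    linarith
  rw [h2]
  have h7 : Real.exp (-x * k) - Real.exp (-x * k) * ((1 - x) * Real.exp x) ^ k ≤
      Real.exp (-x * k) * ((k : ℝ) * x ^ 2) := by
    have := mul_le_mul_of_nonneg_left h6 (Real.exp_pos (-x * k)).le
    nlinarith
  refine h7.trans ?_
  have h8 : (x * k) * Real.exp (-(x * k)) ≤ 1 := by
    rw [Real.exp_neg, ← div_eq_mul_inv, div_le_one (Real.exp_pos _)]
    have := Real.add_one_le_exp (x * k)
    linarith
  calc Real.exp (-x * k) * ((k : ℝ) * x ^ 2) = x * ((x * k) * Real.exp (-(x * k))) := by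
        rw [neg_mul]; ring
    _ ≤ x * 1 := mul_le_mul_of_nonneg_left h8 hx0
    _ = x := mul_one x

/-- the weights of the approximating measures -/
noncomputable def wt (G : ℕ → ℝ → ℝ) (N : ℕ) (k : ℕ) : ℝ :=
  G k N * ((N : ℝ) ^ k / (k.factorial : ℝ)) / G 0 0

lemma wt_nonneg {δ : ℝ} {G : ℕ → ℝ → ℝ} (h : CMChain δ G) (hδ : 0 < δ) (h0 : 0 < G 0 0) (N k : ℕ) :
    0 ≤ wt G N k :=
  div_nonneg (mul_nonneg (h.nonneg k N (by have := Nat.cast_nonneg (α := ℝ) N; linarith))
    (by positivity)) h0.le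

lemma hasSum_wt {δ : ℝ} {G : ℕ → ℝ → ℝ} (h : CMChain δ G) (hδ : 0 < δ) (h0 : 0 < G 0 0) (N : ℕ) :
    HasSum (wt G N) 1 := by
  have hN : (0 : ℝ) ≤ N := Nat.cast_nonneg N
  have := (hasSum_taylor h (l := N) (t := N) hN hδ hN (by linarith)).div_const (G 0 0)
  rw [sub_self, div_self h0.ne'] at this
  exact this

/-- the approximating probability distribution on `ℕ` -/
noncomputable def pm {δ : ℝ} {G : ℕ → ℝ → ℝ} (h : CMChain δ G) (hδ : 0 < δ) (h0 : 0 < G 0 0)
    (N : ℕ) : PMF ℕ :=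
  ⟨fun k => ENNReal.ofReal (wt G N k), by
    have h1 := hasSum_wt h hδ h0 N
    have h2 := ENNReal.ofReal_tsum_of_nonneg (wt_nonneg h hδ h0 N) h1.summable
    rw [h1.tsum_eq, ENNReal.ofReal_one] at h2
    rw [h2]
    exact ENNReal.summable.hasSum⟩

/-- the points of the unit interval charged by the approximating measures -/
noncomputable def pt (N k : ℕ) : I :=
  ⟨Real.exp (-(k / N : ℝ)), (Real.exp_pos _).le, by
    rw [Real.exp_le_one_iff]
    have : (0 : ℝ) ≤ k / N := by positivity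
    linarith⟩

/-- the approximating probability measures on the unit interval -/
noncomputable def mu {δ : ℝ} {G : ℕ → ℝ → ℝ} (h : CMChain δ G) (hδ : 0 < δ) (h0 : 0 < G 0 0)
    (N : ℕ) : ProbabilityMeasure I :=
  ⟨(pm h hδ h0 N).toMeasure.map (pt N), by
    exact Measure.isProbabilityMeasure_map (measurable_from_top).aemeasurable⟩

lemma integral_mu {δ : ℝ} {G : ℕ → ℝ → ℝ} (h : CMChain δ G) (hδ : 0 < δ) (h0 : 0 < G 0 0)
    (N : ℕ) {w : ℝ} (hw : 0 < w) :
    HasSum (fun k => wt G N k * ((pt N k : ℝ) ^ w)) (∫ x, (x : ℝ) ^ w ∂(mu h hδ h0 N : Measure I)) := by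
  have hcont : Continuous fun x : I => (x : ℝ) ^ w :=
    (Real.continuous_rpow_const hw.le).comp continuous_subtype_val
  have hbd : ∀ x : I, ‖(x : ℝ) ^ w‖ ≤ 1 := by
    intro x
    rw [Real.norm_of_nonneg (Real.rpow_nonneg x.2.1 w)]
    exact Real.rpow_le_one x.2.1 x.2.2 hw.le
  have h1 : ∫ x, (x : ℝ) ^ w ∂(mu h hδ h0 N : Measure I) =
      ∫ k, (pt N k : ℝ) ^ w ∂((pm h hδ h0 N).toMeasure) := by
    show ∫ x, (x : ℝ) ^ w ∂((pm h hδ h0 N).toMeasure.map (pt N)) = _
    rw [integral_map (measurable_from_top).aemeasurable hcont.aestronglyMeasurable]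
  have hint : Integrable (fun k => (pt N k : ℝ) ^ w) ((pm h hδ h0 N).toMeasure) := by
    apply Integrable.of_bound (C := 1)
    · exact (measurable_from_top).aestronglyMeasurable
    · exact Eventually.of_forall fun k => hbd _
  rw [h1, PMF.integral_eq_tsum _ _ hint]
  have h2 : ∀ k, ((pm h hδ h0 N) k).toReal • ((pt N k : ℝ) ^ w) = wt G N k * ((pt N k : ℝ) ^ w) := by
    intro k
    rw [smul_eq_mul]
    congr 1
    exact ENNReal.toReal_ofReal (wt_nonneg h hδ h0 N k)
  simp_rw [h2]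
  apply Summable.hasSum
  refine Summable.of_nonneg_of_le (fun k => ?_) (fun k => ?_) (hasSum_wt h hδ h0 N).summable
  · exact mul_nonneg (wt_nonneg h hδ h0 N k) (Real.rpow_nonneg (pt N k).2.1 w)
  · have := mul_le_mul_of_nonneg_left (Real.rpow_le_one (pt N k).2.1 (pt N k).2.2 hw.le)
      (wt_nonneg h hδ h0 N k)
    simpa using this

lemma integral_mu_bound {δ : ℝ} {G : ℕ → ℝ → ℝ} (h : CMChain δ G) (hδ : 0 < δ) (h0 : 0 < G 0 0)
    (N : ℕ) {w : ℝ} (hw : 0 < w) (hN : w ≤ N) :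
    |∫ x, (x : ℝ) ^ w ∂(mu h hδ h0 N : Measure I) - G 0 w / G 0 0| ≤ w / N := by
  have hN0 : (0 : ℝ) < N := hw.trans_le hN
  have h1 := integral_mu h hδ h0 N hw
  have h2 : HasSum (fun k => wt G N k * (1 - w / N) ^ k) (G 0 w / G 0 0) := by
    have h3 := (hasSum_taylor h (l := N) (t := N - w) hN0.le hδ (by linarith)
      (by linarith)).div_const (G 0 0)
    rw [sub_sub_cancel] at h3
    convert! h3 using 2 with k
    rw [wt]
    have : ((N : ℝ) - w) ^ k = (N : ℝ) ^ k * (1 - w / N) ^ k := by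
      rw [← mul_pow]
      congr 1
      field_simp
    rw [this]
    ring
  have h3 := h1.sub h2
  have h4 : ∀ k, ‖wt G N k * ((pt N k : ℝ) ^ w) - wt G N k * (1 - w / N) ^ k‖ ≤
      wt G N k * (w / N) := by
    intro k
    rw [← mul_sub, norm_mul, Real.norm_of_nonneg (wt_nonneg h hδ h0 N k)]
    apply mul_le_mul_of_nonneg_left _ (wt_nonneg h hδ h0 N k)
    have h5 : (pt N k : ℝ) ^ w = Real.exp (-(w / N) * k) := by
      show (Real.exp (-(k / N : ℝ))) ^ w = _
      rw [← Real.exp_mul]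
      congr 1
      ring
    rw [h5, Real.norm_eq_abs]
    exact kernel_bound (by positivity) (by rw [div_le_one hN0]; exact hN) k
  have h6 := (hasSum_wt h hδ h0 N).mul_right (w / N)
  rw [one_mul] at h6
  rw [← h3.tsum_eq, ← Real.norm_eq_abs]
  exact tsum_of_norm_bounded h6 h4

/-- Bernstein's theorem. -/
theorem exists_measure {δ : ℝ} {G : ℕ → ℝ → ℝ} (h : CMChain δ G) (hδ : 0 < δ) (h0 : 0 < G 0 0) :
    ∃ ν : ProbabilityMeasure I, ∀ w : ℝ, 0 < w →
      ∫ x, (x : ℝ) ^ w ∂(ν : Measure I) = G 0 w / G 0 0 := by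
  let U : Ultrafilter ℕ := Filter.hyperfilter ℕ
  have hU : (U : Filter ℕ) ≤ atTop := Nat.hyperfilter_le_atTop
  obtain ⟨ν, -, hν⟩ := isCompact_univ.ultrafilter_le_nhds (U.map (mu h hδ h0)) (by simp)
  refine ⟨ν, fun w hw => ?_⟩
  have hν' : Tendsto (mu h hδ h0) U (𝓝 ν) := hν
  rw [ProbabilityMeasure.tendsto_iff_forall_integral_tendsto] at hν'
  have hcont : Continuous fun x : I => (x : ℝ) ^ w :=
    (Real.continuous_rpow_const hw.le).comp continuous_subtype_val
  have h1 := hν' (BoundedContinuousFunction.mkOfCompact ⟨fun x : I => (x : ℝ) ^ w, hcont⟩)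
  simp only [BoundedContinuousFunction.mkOfCompact_apply, ContinuousMap.coe_mk] at h1
  have h2 : Tendsto (fun N => ∫ x, (x : ℝ) ^ w ∂(mu h hδ h0 N : Measure I)) atTop
      (𝓝 (G 0 w / G 0 0)) := by
    rw [tendsto_iff_norm_sub_tendsto_zero]
    have h3 : Tendsto (fun N : ℕ => w / (N : ℝ)) atTop (𝓝 0) :=
      tendsto_const_div_atTop_nhds_zero_nat w
    refine squeeze_zero' (Eventually.of_forall fun N => norm_nonneg _) ?_ h3
    filter_upwards [eventually_ge_atTop (⌈w⌉₊)] with N hN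
    exact integral_mu_bound h hδ h0 N hw (Nat.ceil_le.mp hN)
  exact tendsto_nhds_unique h1 (h2.mono_left hU)

end Pool.Agent.H403R2
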