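import Mathlib
import Pool.Agent.H403R2.Bernstein

/-!
The inverse `T` of the Chebyshev polynomial `4t³ - 3t - 1` and the completely monotone
function `T^{-1/2} + T^{-1/2} (2T-1)^{-1}`.
-/

set_option autoImplicit false

namespace Pool.Agent.H403R2

open Filter Topology Set

lemma exists_T (w : ℝ) (hw : -(3 / 2) < w) : ∃ t : ℝ, 3 / 4 ≤ t ∧ 4 * t ^ 3 - 3 * t - 1 = w := by
  have hcont : ContinuousOn (fun t : ℝ => 4 * t ^ 3 - 3 * t - 1) (Icc (3 / 4) (|w| + 2)) := by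
    fun_prop
  have h1 : (3 / 4 : ℝ) ≤ |w| + 2 := by have := abs_nonneg w; linarith
  have h2 := intermediate_value_Icc h1 hcont
  have h3 : w ∈ Icc ((fun t : ℝ => 4 * t ^ 3 - 3 * t - 1) (3 / 4))
      ((fun t : ℝ => 4 * t ^ 3 - 3 * t - 1) (|w| + 2)) := by
    constructor
    · norm_num
      linarith
    · have h4 := le_abs_self w
      have h5 := abs_nonneg w
      simp only
      nlinarith [mul_nonneg h5 h5, mul_nonneg h5 (mul_nonneg h5 h5)]
  obtain ⟨t, ht, hte⟩ := h2 h3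
  exact ⟨t, ht.1, hte⟩

open Classical in
/-- the inverse of `t ↦ 4t³ - 3t - 1` -/
noncomputable def TT (w : ℝ) : ℝ :=
  if hw : -(3 / 2) < w then (exists_T w hw).choose else 1

lemma TT_ge {w : ℝ} (hw : -(3 / 2) < w) : 3 / 4 ≤ TT w := by
  rw [TT, dif_pos hw]; exact (exists_T w hw).choose_spec.1

lemma TT_eq {w : ℝ} (hw : -(3 / 2) < w) : 4 * TT w ^ 3 - 3 * TT w - 1 = w := by
  rw [TT, dif_pos hw]; exact (exists_T w hw).choose_spec.2

lemma TT_lip {w w' : ℝ} (hw : -(3 / 2) < w) (hw' : -(3 / 2) < w') : |TT w - TT w'| ≤ |w - w'| := by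
  have h1 := TT_eq hw
  have h2 := TT_eq hw'
  have h3 := TT_ge hw
  have h4 := TT_ge hw'
  have h5 : w - w' = (TT w - TT w') * (4 * (TT w ^ 2 + TT w * TT w' + TT w' ^ 2) - 3) := by
    rw [← h1, ← h2]
    rw [h1, h2]
    have : (TT w - TT w') * (4 * (TT w ^ 2 + TT w * TT w' + TT w' ^ 2) - 3) =
      (4 * TT w ^ 3 - 3 * TT w - 1) - (4 * TT w' ^ 3 - 3 * TT w' - 1) := by ring
    rw [this, h1, h2]
  rw [h5, abs_mul]
  have h6 : 1 ≤ |4 * (TT w ^ 2 + TT w * TT w' + TT w' ^ 2) - 3| := by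
    rw [le_abs]
    left
    nlinarith
  have := mul_le_mul_of_nonneg_left h6 (abs_nonneg (TT w - TT w'))
  linarith

lemma hasDerivAt_TT {w : ℝ} (hw : -(3 / 2) < w) :
    HasDerivAt TT (1 / (3 * (2 * TT w - 1) * (2 * TT w + 1))) w := by
  have hcont : ContinuousAt TT w := by
    rw [Metric.continuousAt_iff]
    intro ε hε
    refine ⟨min ε (w + 3 / 2), lt_min hε (by linarith), fun {x} hx => ?_⟩
    rw [Real.dist_eq] at hx
    have h1 : -(3 / 2) < x := by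
      have := (abs_lt.mp (hx.trans_le (min_le_right _ _))).1
      linarith
    rw [Real.dist_eq]
    exact (TT_lip h1 hw).trans_lt (hx.trans_le (min_le_left _ _))
  have h1 : HasDerivAt (fun t : ℝ => 4 * t ^ 3 - 3 * t - 1)
      (3 * (2 * TT w - 1) * (2 * TT w + 1)) (TT w) := by
    have h2 := (((hasDerivAt_pow 3 (TT w)).const_mul 4).sub
      ((hasDerivAt_id (TT w)).const_mul 3)).sub_const 1
    convert! h2 using 1
    push_cast
    ring
  have hge := TT_ge hw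
  have hne : (3 * (2 * TT w - 1) * (2 * TT w + 1)) ≠ 0 := by
    have h2 : 0 < 2 * TT w - 1 := by linarith
    have h3 : 0 < 2 * TT w + 1 := by linarith
    positivity
  have h2 : ∀ᶠ y in 𝓝 w, (fun t : ℝ => 4 * t ^ 3 - 3 * t - 1) (TT y) = y := by
    filter_upwards [lt_mem_nhds hw] with y hy
    exact TT_eq hy
  have := HasDerivAt.of_local_left_inverse hcont h1 hne h2
  rwa [← one_div] at this

/-- the class of functions that is stable under `-d/dw` -/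
inductive Cls : (ℝ → ℝ) → Prop
  | base (k a b c : ℝ) (hk : 0 ≤ k) (ha : 0 ≤ a) (hb : 0 ≤ b) (hc : 0 ≤ c) :
      Cls (fun w => k * (TT w ^ (-a) * (2 * TT w - 1) ^ (-b) * (2 * TT w + 1) ^ (-c)))
  | add (f g : ℝ → ℝ) (hf : Cls f) (hg : Cls g) : Cls (fun w => f w + g w)

lemma Cls.nonneg {g : ℝ → ℝ} (hg : Cls g) {w : ℝ} (hw : -(3 / 2) < w) : 0 ≤ g w := by
  have hge := TT_ge hw
  have h1 : 0 < TT w := by linarith
  have h2 : 0 < 2 * TT w - 1 := by linarith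
  have h3 : 0 < 2 * TT w + 1 := by linarith
  induction hg with
  | base k a b c hk ha hb hc => positivity
  | add f g hf hg ihf ihg => exact add_nonneg ihf ihg

lemma Cls.deriv {g : ℝ → ℝ} (hg : Cls g) :
    ∃ g' : ℝ → ℝ, Cls g' ∧ ∀ w, -(3 / 2) < w → HasDerivAt g (-g' w) w := by
  induction hg with
  | base k a b c hk ha hb hc =>
    refine ⟨_, Cls.add _ _ (Cls.add _ _
      (Cls.base (k * a / 3) (a + 1) (b + 1) (c + 1) (by positivity) (by positivity)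
        (by positivity) (by positivity))
      (Cls.base (k * (2 * b) / 3) a (b + 2) (c + 1) (by positivity) (by positivity)
        (by positivity) (by positivity)))
      (Cls.base (k * (2 * c) / 3) a (b + 1) (c + 2) (by positivity) (by positivity)
        (by positivity) (by positivity)), fun w hw => ?_⟩
    have hge := TT_ge hw
    have h1 : 0 < TT w := by linarith
    have h2 : 0 < 2 * TT w - 1 := by linarith
    have h3 : 0 < 2 * TT w + 1 := by linarith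
    have hT := hasDerivAt_TT hw
    have hA := hT.rpow_const (p := -a) (Or.inl h1.ne')
    have hB := ((hT.const_mul 2).sub_const 1).rpow_const (p := -b) (Or.inl h2.ne')
    have hC := ((hT.const_mul 2).add_const 1).rpow_const (p := -c) (Or.inl h3.ne')
    have hD := ((hA.fun_mul hB).fun_mul hC).const_mul k
    refine hD.congr_deriv ?_
    have e1 : TT w ^ (-a - 1) = TT w ^ (-a) / TT w := by
      rw [Real.rpow_sub_one h1.ne']
    have e2 : (2 * TT w - 1) ^ (-b - 1) = (2 * TT w - 1) ^ (-b) / (2 * TT w - 1) := by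
      rw [Real.rpow_sub_one h2.ne']
    have e3 : (2 * TT w + 1) ^ (-c - 1) = (2 * TT w + 1) ^ (-c) / (2 * TT w + 1) := by
      rw [Real.rpow_sub_one h3.ne']
    have e4 : TT w ^ (-(a + 1)) = TT w ^ (-a) / TT w := by
      rw [neg_add, ← sub_eq_add_neg, Real.rpow_sub_one h1.ne']
    have e5 : (2 * TT w - 1) ^ (-(b + 1)) = (2 * TT w - 1) ^ (-b) / (2 * TT w - 1) := by
      rw [neg_add, ← sub_eq_add_neg, Real.rpow_sub_one h2.ne']
    have e6 : (2 * TT w + 1) ^ (-(c + 1)) = (2 * TT w + 1) ^ (-c) / (2 * TT w + 1) := by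
      rw [neg_add, ← sub_eq_add_neg, Real.rpow_sub_one h3.ne']
    have e7 : (2 * TT w - 1) ^ (-(b + 2)) = (2 * TT w - 1) ^ (-b) / (2 * TT w - 1) ^ 2 := by
      rw [neg_add, ← sub_eq_add_neg, Real.rpow_sub h2, Real.rpow_two]
    have e8 : (2 * TT w + 1) ^ (-(c + 2)) = (2 * TT w + 1) ^ (-c) / (2 * TT w + 1) ^ 2 := by
      rw [neg_add, ← sub_eq_add_neg, Real.rpow_sub h3, Real.rpow_two]
    rw [e1, e2, e3, e4, e5, e6, e7, e8]
    field_simp
    ring
  | add f g hf hg ihf ihg =>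
    obtain ⟨f', hf', hfd⟩ := ihf
    obtain ⟨g', hg', hgd⟩ := ihg
    refine ⟨_, Cls.add _ _ hf' hg', fun w hw => ?_⟩
    have := (hfd w hw).fun_add (hgd w hw)
    refine this.congr_deriv ?_
    ring

/-- iterated derivatives in the class -/
noncomputable def chainCls (g : {g : ℝ → ℝ // Cls g}) : ℕ → {g : ℝ → ℝ // Cls g}
  | 0 => g
  | n + 1 => ⟨(chainCls g n).2.deriv.choose, (chainCls g n).2.deriv.choose_spec.1⟩

lemma cmChain_of_cls {g : ℝ → ℝ} (hg : Cls g) : ∃ G : ℕ → ℝ → ℝ, CMChain 1 G ∧ G 0 = g := by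
  refine ⟨fun n => (chainCls ⟨g, hg⟩ n).1, ⟨fun n w hw => ?_, fun n w hw => ?_⟩, rfl⟩
  · exact (chainCls ⟨g, hg⟩ n).2.nonneg (by linarith)
  · exact (chainCls ⟨g, hg⟩ n).2.deriv.choose_spec.2 w (by linarith)

/-- `T^{-1/2} + T^{-1/2} (2T-1)^{-1}` -/
noncomputable def qs (w : ℝ) : ℝ :=
  1 * (TT w ^ (-(1 / 2 : ℝ)) * (2 * TT w - 1) ^ (-(0 : ℝ)) * (2 * TT w + 1) ^ (-(0 : ℝ))) +
  1 * (TT w ^ (-(1 / 2 : ℝ)) * (2 * TT w - 1) ^ (-(1 : ℝ)) * (2 * TT w + 1) ^ (-(0 : ℝ)))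

lemma cls_qs : Cls qs :=
  Cls.add _ _ (Cls.base 1 (1 / 2) 0 0 zero_le_one (by norm_num) le_rfl le_rfl)
    (Cls.base 1 (1 / 2) 1 0 zero_le_one (by norm_num) zero_le_one le_rfl)

lemma qs_eq (w : ℝ) : qs w = TT w ^ (-(1 / 2 : ℝ)) * (1 + (2 * TT w - 1)⁻¹) := by
  rw [qs]
  simp only [neg_zero, Real.rpow_zero, mul_one, one_mul, Real.rpow_neg_one]
  ring

/-- `2 T(z²)^{3/2}` -/
noncomputable def fs (z : ℝ) : ℝ := 2 * TT (z ^ 2) ^ (3 / 2 : ℝ)

/-- its derivative -/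
noncomputable def fs' (z : ℝ) : ℝ :=
  2 * z * TT (z ^ 2) ^ (1 / 2 : ℝ) / ((2 * TT (z ^ 2) - 1) * (2 * TT (z ^ 2) + 1))

lemma sq_gt (z : ℝ) : -(3 / 2) < z ^ 2 := by nlinarith [sq_nonneg z]

lemma hasDerivAt_fs (z : ℝ) : HasDerivAt fs (fs' z) z := by
  have hw := sq_gt z
  have hge := TT_ge hw
  have h1 : 0 < TT (z ^ 2) := by linarith
  have h2 : 0 < 2 * TT (z ^ 2) - 1 := by linarith
  have h3 : 0 < 2 * TT (z ^ 2) + 1 := by linarith
  have hT := hasDerivAt_TT hw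
  have hsq : HasDerivAt (fun z : ℝ => z ^ 2) (2 * z) z := by
    simpa using hasDerivAt_pow 2 z
  have hc : HasDerivAt (fun z => TT (z ^ 2))
      (1 / (3 * (2 * TT (z ^ 2) - 1) * (2 * TT (z ^ 2) + 1)) * (2 * z)) z :=
    HasDerivAt.comp (h₂ := TT) (h := fun z : ℝ => z ^ 2) z hT hsq
  have h4 := (hc.rpow_const (p := (3 / 2 : ℝ)) (Or.inl h1.ne')).const_mul 2
  refine h4.congr_deriv ?_
  rw [fs']
  have : (3 / 2 : ℝ) - 1 = 1 / 2 := by norm_num
  rw [this]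
  field_simp

lemma fs'_zero : fs' 0 = 0 := by simp [fs']

lemma fs_sub (z : ℝ) : fs z - z * fs' z = qs (z ^ 2) := by
  have hw := sq_gt z
  have hge := TT_ge hw
  have h1 : 0 < TT (z ^ 2) := by linarith
  have h2 : 0 < 2 * TT (z ^ 2) - 1 := by linarith
  have h3 : 0 < 2 * TT (z ^ 2) + 1 := by linarith
  have h4 := TT_eq hw
  rw [qs_eq, fs, fs']
  generalize hT : TT (z ^ 2) = T at *
  have e1 : T ^ (3 / 2 : ℝ) = T ^ (-(1 / 2 : ℝ)) * T ^ 2 := by
    rw [← Real.rpow_natCast, ← Real.rpow_add h1]; norm_num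
  have e2 : T ^ (1 / 2 : ℝ) = T ^ (-(1 / 2 : ℝ)) * T := by
    rw [← Real.rpow_add_one h1.ne']; norm_num
  rw [e1, e2]
  have h5 : z * (2 * z * (T ^ (-(1 / 2 : ℝ)) * T) / ((2 * T - 1) * (2 * T + 1))) =
      T ^ (-(1 / 2 : ℝ)) * (2 * T * z ^ 2 / ((2 * T - 1) * (2 * T + 1))) := by ring
  rw [h5, ← h4]
  field_simp
  ring

lemma fs_nonneg (z : ℝ) : 0 ≤ fs z := by
  have hw := sq_gt z
  have hge := TT_ge hw
  have h1 : 0 < TT (z ^ 2) := by linarith
  rw [fs]; positivity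

/-! ### the explicit side -/

/-- coefficients -/
noncomputable def cN : ℕ → ℝ
  | 0 => 1 / 2
  | n + 1 => cN n * (3 / 2 + n)

lemma cN_nonneg (n : ℕ) : 0 ≤ cN n := by
  induction n with
  | zero => norm_num [cN]
  | succ n ih => rw [cN]; positivity

/-- derivatives of `(1/2)(1+x)^{-3/2}` -/
noncomputable def GN (n : ℕ) (x : ℝ) : ℝ := cN n * (1 + x) ^ (-(3 / 2 + n : ℝ))

lemma cmChain_GN : CMChain 1 GN where
  nonneg n w hw := mul_nonneg (cN_nonneg n) (Real.rpow_nonneg (by linarith) _)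
  deriv n w hw := by
    have h1 : HasDerivAt (fun x : ℝ => 1 + x) 1 w := by
      simpa using (hasDerivAt_id w).const_add 1
    have h2 := (h1.rpow_const (p := -(3 / 2 + n : ℝ)) (Or.inl (by linarith))).const_mul (cN n)
    refine h2.congr_deriv ?_
    rw [GN, cN]
    have : (-(3 / 2 + n : ℝ) - 1) = -(3 / 2 + (n + 1 : ℕ) : ℝ) := by push_cast; ring
    rw [this]
    ring

/-- `(1/2 + z²)/√(1+z²)` -/
noncomputable def fN (z : ℝ) : ℝ := (1 / 2 + z ^ 2) * (1 + z ^ 2) ^ (-(1 / 2 : ℝ))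

/-- its derivative -/
noncomputable def fN' (z : ℝ) : ℝ := z * (z ^ 2 + 3 / 2) * (1 + z ^ 2) ^ (-(3 / 2 : ℝ))

lemma hasDerivAt_fN (z : ℝ) : HasDerivAt fN (fN' z) z := by
  have h0 : 0 < 1 + z ^ 2 := by positivity
  have hsq : HasDerivAt (fun z : ℝ => z ^ 2) (2 * z) z := by
    simpa using hasDerivAt_pow 2 z
  have h1 := (hsq.const_add (1 / 2)).fun_mul
    ((hsq.const_add 1).rpow_const (p := -(1 / 2 : ℝ)) (Or.inl h0.ne'))
  refine h1.congr_deriv ?_
  rw [fN']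
  have e1 : (1 + z ^ 2) ^ (-(1 / 2 : ℝ)) = (1 + z ^ 2) ^ (-(3 / 2 : ℝ)) * (1 + z ^ 2) := by
    rw [← Real.rpow_add_one h0.ne']; norm_num
  have e2 : (1 + z ^ 2) ^ (-(1 / 2 : ℝ) - 1) = (1 + z ^ 2) ^ (-(3 / 2 : ℝ)) := by norm_num
  rw [e2, e1]
  ring

lemma fN'_zero : fN' 0 = 0 := by simp [fN']

lemma fN_sub (z : ℝ) : fN z - z * fN' z = GN 0 (z ^ 2) := by
  have h0 : 0 < 1 + z ^ 2 := by positivity
  rw [fN, fN', GN, cN]
  have e1 : (1 + z ^ 2) ^ (-(1 / 2 : ℝ)) = (1 + z ^ 2) ^ (-(3 / 2 : ℝ)) * (1 + z ^ 2) := by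
    rw [← Real.rpow_add_one h0.ne']; norm_num
  rw [e1]
  simp only [Nat.cast_zero, add_zero]
  ring

lemma fN_nonneg (z : ℝ) : 0 ≤ fN z := by
  rw [fN]; positivity

end Pool.Agent.H403R2
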