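import Mathlib

/-!
The function `u ↦ E |g + u|` for a standard Gaussian `g`.
-/

set_option autoImplicit false

namespace Pool.Agent.H403R2

open MeasureTheory Filter Topology Set ProbabilityTheory
open scoped ENNReal NNReal

/-- standard Gaussian density -/
noncomputable def ph (t : ℝ) : ℝ := (Real.sqrt (2 * Real.pi))⁻¹ * Real.exp (-(t ^ 2) / 2)

lemma ph_eq (t : ℝ) : gaussianPDFReal 0 1 t = ph t := by
  simp [gaussianPDFReal, ph]

lemma ph_neg (t : ℝ) : ph (-t) = ph t := by simp [ph]

lemma ph_pos (t : ℝ) : 0 < ph t := by unfold ph; positivity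

lemma continuous_ph : Continuous ph := by unfold ph; fun_prop

lemma hasDerivAt_ph (t : ℝ) : HasDerivAt ph (-(t * ph t)) t := by
  unfold ph
  have h1 : HasDerivAt (fun t : ℝ => -(t ^ 2) / 2) (-t) t := by
    have := ((hasDerivAt_pow 2 t).fun_neg).div_const 2
    convert! this using 1
    push_cast
    ring
  have h2 := (h1.exp).const_mul ((Real.sqrt (2 * Real.pi))⁻¹)
  convert! h2 using 1
  ring

lemma integrable_ph : Integrable ph := by
  have := integrable_gaussianPDFReal 0 1
  simpa only [funext ph_eq] using this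

lemma integral_ph : ∫ t, ph t = 1 := by
  have := integral_gaussianPDFReal_eq_one 0 (v := 1) one_ne_zero
  simpa only [funext ph_eq] using this

lemma tendsto_ph_atTop : Tendsto ph atTop (𝓝 0) := by
  have h1 : Tendsto (fun t : ℝ => -(t ^ 2) / 2) atTop atBot := by
    have : Tendsto (fun t : ℝ => t ^ 2 / 2) atTop atTop :=
      (tendsto_pow_atTop two_ne_zero).atTop_div_const two_pos
    have h2 := tendsto_neg_atTop_atBot.comp this
    refine h2.congr fun t => ?_
    simp only [Function.comp]
    ring
  have h2 := (Real.tendsto_exp_atBot.comp h1).const_mul ((Real.sqrt (2 * Real.pi))⁻¹)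
  rw [mul_zero] at h2
  exact h2

lemma tendsto_ph_atBot : Tendsto ph atBot (𝓝 0) := by
  have := tendsto_ph_atTop.comp tendsto_neg_atBot_atTop
  refine this.congr fun t => ?_
  simp [ph_neg]

lemma integrable_mul_ph : Integrable fun t => t * ph t := by
  have h := integrable_mul_exp_neg_mul_sq (b := 1 / 2) (by norm_num)
  have h2 := h.const_mul ((Real.sqrt (2 * Real.pi))⁻¹)
  refine h2.congr (Eventually.of_forall fun t => ?_)
  simp only [ph]
  have : -(1 / 2 : ℝ) * t ^ 2 = -(t ^ 2) / 2 := by ring
  rw [this]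
  ring

lemma integral_Ioi_mul_ph (a : ℝ) : ∫ t in Ioi a, t * ph t = ph a := by
  have h := integral_Ioi_of_hasDerivAt_of_tendsto' (f := fun t => -ph t) (f' := fun t => t * ph t)
    (a := a) (m := 0) (fun x _ => by
      have := (hasDerivAt_ph x).fun_neg
      simpa using this) integrable_mul_ph.integrableOn (by simpa using tendsto_ph_atTop.neg)
  rw [h]
  simp

lemma integral_Iic_mul_ph (a : ℝ) : ∫ t in Iic a, t * ph t = -ph a := by
  have h := integral_Iic_of_hasDerivAt_of_tendsto' (f := fun t => -ph t) (f' := fun t => t * ph t)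
    (a := a) (m := 0) (fun x _ => by
      have := (hasDerivAt_ph x).fun_neg
      simpa using this) integrable_mul_ph.integrableOn (by simpa using tendsto_ph_atBot.neg)
  rw [h]
  simp

/-- `∫_0^u ph` -/
noncomputable def Ph (u : ℝ) : ℝ := ∫ t in (0 : ℝ)..u, ph t

lemma hasDerivAt_Ph (u : ℝ) : HasDerivAt Ph (ph u) u :=
  intervalIntegral.integral_hasDerivAt_right (continuous_ph.intervalIntegrable _ _)
    (continuous_ph.stronglyMeasurableAtFilter _ _) continuous_ph.continuousAt

lemma integral_Ioi_zero_ph : ∫ t in Ioi (0 : ℝ), ph t = 1 / 2 := by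
  have h1 : ∫ t in Iic (0 : ℝ), ph t = ∫ t in Ioi (0 : ℝ), ph t := by
    have := integral_comp_neg_Iic (0 : ℝ) ph
    simp only [ph_neg, neg_zero] at this
    exact this
  have h2 := intervalIntegral.integral_Iic_add_Ioi (b := (0 : ℝ)) integrable_ph.integrableOn
    integrable_ph.integrableOn
  rw [integral_ph, h1] at h2
  linarith

lemma integral_Ioi_ph (u : ℝ) : ∫ t in Ioi (-u), ph t = 1 / 2 + Ph u := by
  have h1 := intervalIntegral.integral_interval_add_Ioi (a := -u) (b := 0) (f := ph)
    (μ := volume) integrable_ph.integrableOn integrable_ph.integrableOn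
  rw [integral_Ioi_zero_ph] at h1
  have h2 : ∫ t in (-u)..0, ph t = Ph u := by
    have := intervalIntegral.integral_comp_neg (a := (0 : ℝ)) (b := u) ph
    simp only [ph_neg, neg_zero] at this
    rw [← this, Ph]
  rw [← h1, h2]
  ring

lemma integral_Iic_ph (u : ℝ) : ∫ t in Iic (-u), ph t = 1 / 2 - Ph u := by
  have h2 := intervalIntegral.integral_Iic_add_Ioi (b := -u) integrable_ph.integrableOn
    integrable_ph.integrableOn
  rw [integral_ph, integral_Ioi_ph] at h2
  linarith

/-- `E |g + u|` -/
noncomputable def Ab (u : ℝ) : ℝ := 2 * (ph u + u * Ph u)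

lemma integral_abs (u : ℝ) : ∫ t, |t + u| * ph t = Ab u := by
  have hint : Integrable fun t => |t + u| * ph t := by
    have h1 : Integrable fun t => t * ph t + u * ph t := integrable_mul_ph.add
      (integrable_ph.const_mul u)
    refine h1.norm.congr (Eventually.of_forall fun t => ?_)
    simp only
    rw [← add_mul, norm_mul, Real.norm_eq_abs, Real.norm_of_nonneg (ph_pos t).le]
  have h2 := intervalIntegral.integral_Iic_add_Ioi (b := -u) hint.integrableOn hint.integrableOn
  rw [← h2]
  have h3 : ∫ t in Iic (-u), |t + u| * ph t = ph u - u * (1 / 2 - Ph u) := by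
    have h4 : ∫ t in Iic (-u), |t + u| * ph t = ∫ t in Iic (-u), (-(t * ph t) - u * ph t) := by
      apply setIntegral_congr_fun measurableSet_Iic
      intro t ht
      simp only
      have : t + u ≤ 0 := by have := mem_Iic.mp ht; linarith
      rw [abs_of_nonpos this]
      ring
    rw [h4, integral_sub integrable_mul_ph.fun_neg.integrableOn
      (integrable_ph.const_mul u).integrableOn, integral_neg, integral_Iic_mul_ph,
      integral_const_mul, integral_Iic_ph, ph_neg]
    ring
  have h5 : ∫ t in Ioi (-u), |t + u| * ph t = ph u + u * (1 / 2 + Ph u) := by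
    have h4 : ∫ t in Ioi (-u), |t + u| * ph t = ∫ t in Ioi (-u), (t * ph t + u * ph t) := by
      apply setIntegral_congr_fun measurableSet_Ioi
      intro t ht
      simp only
      have : 0 ≤ t + u := by have := mem_Ioi.mp ht; linarith
      rw [abs_of_nonneg this]
      ring
    rw [h4, integral_add integrable_mul_ph.integrableOn
      (integrable_ph.const_mul u).integrableOn, integral_Ioi_mul_ph,
      integral_const_mul, integral_Ioi_ph, ph_neg]
  rw [h3, h5, Ab]
  ring

lemma lintegral_abs (u : ℝ) : ∫⁻ t, ENNReal.ofReal |t + u| ∂(gaussianReal 0 1) =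
    ENNReal.ofReal (Ab u) := by
  rw [gaussianReal_of_var_ne_zero 0 one_ne_zero, lintegral_withDensity_eq_lintegral_mul _
    (measurable_gaussianPDF 0 1) (by fun_prop)]
  have hint : Integrable fun t => |t + u| * ph t := by
    have h1 : Integrable fun t => t * ph t + u * ph t := integrable_mul_ph.add
      (integrable_ph.const_mul u)
    refine h1.norm.congr (Eventually.of_forall fun t => ?_)
    simp only
    rw [← add_mul, norm_mul, Real.norm_eq_abs, Real.norm_of_nonneg (ph_pos t).le]
  rw [← integral_abs, ofReal_integral_eq_lintegral_ofReal hint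
    (Eventually.of_forall fun t => mul_nonneg (abs_nonneg _) (ph_pos t).le)]
  apply lintegral_congr
  intro t
  rw [Pi.mul_apply, gaussianPDF, ph_eq, ENNReal.ofReal_mul (abs_nonneg _), mul_comm]

lemma hasDerivAt_Ab (u : ℝ) : HasDerivAt Ab (2 * Ph u) u := by
  have h := ((hasDerivAt_ph u).add ((hasDerivAt_id u).mul (hasDerivAt_Ph u))).const_mul 2
  convert! h using 1
  simp only [id]
  ring

lemma Ab_sub (u : ℝ) : Ab u - u * (2 * Ph u) = 2 * ph u := by
  rw [Ab]; ring

lemma Ph_zero : Ph 0 = 0 := by simp [Ph]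

lemma Ab_nonneg (u : ℝ) : 0 ≤ Ab u := by
  rw [← integral_abs]
  exact integral_nonneg fun t => mul_nonneg (abs_nonneg _) (ph_pos t).le

lemma ph_zero : ph 0 = (Real.sqrt (2 * Real.pi))⁻¹ := by simp [ph]

lemma Ab_zero : Ab 0 = 2 * (Real.sqrt (2 * Real.pi))⁻¹ := by
  simp [Ab, ph_zero]

/-- Integral representation of a function through `f z - z f' z`. -/
lemma repr_lintegral {f f' Q : ℝ → ℝ} (hf : ∀ z, HasDerivAt f (f' z) z) (h0 : f' 0 = 0)
    (hQ : ∀ z, f z - z * f' z = Q z) (hle : ∀ z, Q z ≤ Q 0) {z : ℝ} (hz : 0 < z) :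
    ENNReal.ofReal ((f z - f 0) / z) =
      ∫⁻ v in Ioc 0 z, ENNReal.ofReal ((Q 0 - Q v) / v ^ 2) := by
  have hf0 : f 0 = Q 0 := by have := hQ 0; simpa using this
  have hk : ContinuousOn (dslope f 0) (Icc 0 z) := by
    intro v _
    apply ContinuousAt.continuousWithinAt
    by_cases hv : v = 0
    · subst hv
      exact continuousAt_dslope_same.mpr (hf 0).differentiableAt
    · exact (continuousAt_dslope_of_ne hv).mpr (hf v).continuousAt
  have hd : ∀ v ∈ Ioo 0 z, HasDerivAt (dslope f 0) ((Q 0 - Q v) / v ^ 2) v := by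
    intro v hv
    have hv0 : v ≠ 0 := hv.1.ne'
    have h1 : HasDerivAt (fun v => (f v - f 0) / v) ((f' v * v - (f v - f 0) * 1) / v ^ 2) v :=
      ((hf v).sub_const (f 0)).div (hasDerivAt_id v) hv0
    have h2 : (f' v * v - (f v - f 0) * 1) / v ^ 2 = (Q 0 - Q v) / v ^ 2 := by
      rw [← hQ v, ← hf0]; ring
    rw [h2] at h1
    refine h1.congr_of_eventuallyEq ?_
    filter_upwards [isOpen_ne.mem_nhds hv0] with x hx
    rw [dslope_of_ne _ hx, slope_def_field]
    simp
  have hnn : ∀ v, 0 ≤ (Q 0 - Q v) / v ^ 2 := fun v =>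
    div_nonneg (by linarith [hle v]) (sq_nonneg v)
  have hii : IntervalIntegrable (fun v => (Q 0 - Q v) / v ^ 2) volume 0 z := by
    apply intervalIntegral.intervalIntegrable_deriv_of_nonneg (g := dslope f 0)
    · rwa [uIcc_of_le hz.le]
    · rwa [min_eq_left hz.le, max_eq_right hz.le]
    · intro v _; exact hnn v
  have h3 := intervalIntegral.integral_eq_sub_of_hasDerivAt_of_le hz.le hk hd hii
  have h4 : dslope f 0 z - dslope f 0 0 = (f z - f 0) / z := by
    rw [dslope_same, (hf 0).deriv, h0, dslope_of_ne _ hz.ne', slope_def_field]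
    simp
  rw [← h4, ← h3, intervalIntegral.integral_of_le hz.le]
  exact ofReal_integral_eq_lintegral_ofReal ((intervalIntegrable_iff_integrableOn_Ioc_of_le
    hz.le).mp hii) (Eventually.of_forall hnn)

end Pool.Agent.H403R2
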