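import Mathlib
import Pool.Agent.H403R2.GaussAbs

/-!
Mixtures of the functions `z ↦ E |g + z b|`.
-/

set_option autoImplicit false

namespace Pool.Agent.H403R2

open MeasureTheory Filter Topology Set ProbabilityTheory
open scoped ENNReal NNReal unitInterval

/-- `b x = √(-2 log x)` -/
noncomputable def bb (x : I) : ℝ := Real.sqrt (-2 * Real.log x)

lemma measurable_bb : Measurable bb := by unfold bb; fun_prop

lemma bb_nonneg (x : I) : 0 ≤ bb x := Real.sqrt_nonneg _

lemma bb_sq (x : I) : bb x ^ 2 = -2 * Real.log x := by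
  unfold bb
  rw [Real.sq_sqrt]
  have := Real.log_nonpos x.2.1 x.2.2
  linarith

lemma ph_bb {x : I} (hx : (x : ℝ) ≠ 0) (v : ℝ) :
    ph (v * bb x) = (Real.sqrt (2 * Real.pi))⁻¹ * (x : ℝ) ^ (v ^ 2) := by
  have hx0 : 0 < (x : ℝ) := lt_of_le_of_ne x.2.1 (Ne.symm hx)
  rw [ph, Real.rpow_def_of_pos hx0, mul_pow, bb_sq]
  congr 2
  ring

lemma sqrt_two_pi_pos : 0 < Real.sqrt (2 * Real.pi) := by positivity

/-- normalised -/
noncomputable def fx (x : I) (z : ℝ) : ℝ := Real.sqrt (2 * Real.pi) / 2 * Ab (z * bb x)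

lemma fx_repr {x : I} (hx : (x : ℝ) ≠ 0) {z : ℝ} (hz : 0 < z) :
    ENNReal.ofReal ((fx x z - 1) / z) =
      ∫⁻ v in Ioc 0 z, ENNReal.ofReal ((1 - (x : ℝ) ^ (v ^ 2)) / v ^ 2) := by
  have hs := sqrt_two_pi_pos
  have h1 : ∀ z, HasDerivAt (fx x) (Real.sqrt (2 * Real.pi) / 2 * (2 * Ph (z * bb x) * bb x)) z := by
    intro z
    have h2 : HasDerivAt (fun z => z * bb x) (bb x) z := by
      simpa using (hasDerivAt_id z).mul_const (bb x)
    exact (HasDerivAt.comp z (hasDerivAt_Ab (z * bb x)) h2).const_mul _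
  have h3 : ∀ z, fx x z - z * (Real.sqrt (2 * Real.pi) / 2 * (2 * Ph (z * bb x) * bb x)) =
      (x : ℝ) ^ (z ^ 2) := by
    intro z
    have h4 := Ab_sub (z * bb x)
    rw [ph_bb hx] at h4
    have : fx x z - z * (Real.sqrt (2 * Real.pi) / 2 * (2 * Ph (z * bb x) * bb x)) =
        Real.sqrt (2 * Real.pi) / 2 * (Ab (z * bb x) - z * bb x * (2 * Ph (z * bb x))) := by
      rw [fx]; ring
    rw [this, h4]
    field_simp
  have h5 : ∀ z : ℝ, (x : ℝ) ^ (z ^ 2) ≤ (x : ℝ) ^ ((0 : ℝ) ^ 2) := by
    intro z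
    have : (x : ℝ) ^ ((0 : ℝ) ^ 2) = 1 := by norm_num
    rw [this]
    exact Real.rpow_le_one x.2.1 x.2.2 (sq_nonneg z)
  have h6 := repr_lintegral (Q := fun z => (x : ℝ) ^ (z ^ 2)) h1 (by simp [Ph_zero]) h3 h5 hz
  have h7 : fx x 0 = 1 := by
    rw [fx, zero_mul, Ab_zero]
    field_simp
  have h8 : (x : ℝ) ^ ((0 : ℝ) ^ 2) = 1 := by norm_num
  rw [h7] at h6
  simp only [h8] at h6
  exact h6

lemma one_le_fx (x : I) {z : ℝ} (hz : 0 ≤ z) : 1 ≤ fx x z := by
  have hs := sqrt_two_pi_pos
  rcases hz.eq_or_lt with rfl | hz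
  · rw [fx, zero_mul, Ab_zero]
    have : Real.sqrt (2 * Real.pi) / 2 * (2 * (Real.sqrt (2 * Real.pi))⁻¹) = 1 := by field_simp
    rw [this]
  · have hmono : MonotoneOn (fx x) (Icc 0 z) := by
      have h1 : ∀ z, HasDerivAt (fx x)
          (Real.sqrt (2 * Real.pi) / 2 * (2 * Ph (z * bb x) * bb x)) z := by
        intro z
        have h2 : HasDerivAt (fun z => z * bb x) (bb x) z := by
          simpa using (hasDerivAt_id z).mul_const (bb x)
        exact (HasDerivAt.comp z (hasDerivAt_Ab (z * bb x)) h2).const_mul _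
      apply monotoneOn_of_deriv_nonneg (convex_Icc 0 z)
        (fun v _ => (h1 v).continuousAt.continuousWithinAt)
        (fun v _ => (h1 v).differentiableAt.differentiableWithinAt)
      intro v hv
      rw [(h1 v).deriv]
      have hv0 : 0 ≤ v := (interior_subset hv).1
      have h3 : 0 ≤ Ph (v * bb x) := by
        rw [Ph]
        apply intervalIntegral.integral_nonneg (mul_nonneg hv0 (bb_nonneg x))
        intro u _
        exact (ph_pos u).le
      have := bb_nonneg x
      positivity
    have h4 := hmono (left_mem_Icc.mpr hz.le) (right_mem_Icc.mpr hz.le) hz.le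
    have h7 : fx x 0 = 1 := by
      rw [fx, zero_mul, Ab_zero]
      field_simp
    rwa [h7] at h4

lemma rpow_integrable (ν : Measure I) [IsProbabilityMeasure ν] {w : ℝ} (hw : 0 ≤ w) :
    Integrable (fun x : I => (x : ℝ) ^ w) ν := by
  have hcont : Continuous fun x : I => (x : ℝ) ^ w :=
    (Real.continuous_rpow_const hw).comp continuous_subtype_val
  apply Integrable.of_bound hcont.aestronglyMeasurable 1
  refine Eventually.of_forall fun x => ?_
  rw [Real.norm_of_nonneg (Real.rpow_nonneg x.2.1 w)]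
  exact Real.rpow_le_one x.2.1 x.2.2 hw

lemma ae_ne_zero (ν : Measure I) [IsProbabilityMeasure ν] {q : ℝ → ℝ} (hq0 : 0 < q 0)
    (hq : ∀ w : ℝ, 0 < w → ∫ x, (x : ℝ) ^ w ∂ν = q w / q 0) (hqc : ContinuousAt q 0) :
    ∀ᵐ (x : I) ∂ν, (x : ℝ) ≠ 0 := by
  have h1 : ∀ w : ℝ, 0 < w → q w / q 0 ≤ ν.real {x : ↥I | (x : ℝ) ≠ 0} := by
    intro w hw
    rw [← hq w hw]
    have hms : MeasurableSet {x : ↥I | (x : ℝ) ≠ 0} :=
      (measurableSet_singleton (0 : ℝ)).compl.preimage measurable_subtype_coe
    have h2 : ∫ x, (x : ℝ) ^ w ∂ν ≤ ∫ x, ({x : ↥I | (x : ℝ) ≠ 0}.indicator (fun _ => (1 : ℝ))) x ∂ν := by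
      apply integral_mono (rpow_integrable ν hw.le) ((integrable_const _).indicator hms)
      intro x
      by_cases hx : (x : ℝ) = 0
      · have h3 : x ∉ {x : ↥I | (x : ℝ) ≠ 0} := by simpa using hx
        simp only [Set.indicator_of_notMem h3, hx]
        rw [Real.zero_rpow hw.ne']
      · have h3 : x ∈ {x : ↥I | (x : ℝ) ≠ 0} := hx
        simp only [Set.indicator_of_mem h3]
        exact Real.rpow_le_one x.2.1 x.2.2 hw.le
    rw [integral_indicator hms] at h2
    simpa using h2
  have h2 : Tendsto (fun w => q w / q 0) (𝓝[>] 0) (𝓝 1) := by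
    have h5 : Tendsto q (𝓝[>] 0) (𝓝 (q 0)) := hqc.tendsto.mono_left nhdsWithin_le_nhds
    have := h5.div_const (q 0)
    rwa [div_self hq0.ne'] at this
  have h3 : 1 ≤ ν.real {x : ↥I | (x : ℝ) ≠ 0} :=
    le_of_tendsto h2 (eventually_nhdsWithin_of_forall fun w hw => h1 w hw)
  have h4 : ν.real {x : ↥I | (x : ℝ) ≠ 0} = 1 := le_antisymm measureReal_le_one h3
  have hms : MeasurableSet {x : ↥I | (x : ℝ) ≠ 0} :=
      (measurableSet_singleton (0 : ℝ)).compl.preimage measurable_subtype_coe
  have h5 : ν {x : ↥I | (x : ℝ) ≠ 0} = 1 := by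
    have := (ENNReal.toReal_eq_one_iff _).mp h4
    exact this
  exact (prob_compl_eq_zero_iff hms).mpr h5

lemma mix_aux (ν : Measure I) [IsProbabilityMeasure ν] {q f f' : ℝ → ℝ} (hq0 : 0 < q 0)
    (hq : ∀ w : ℝ, 0 < w → ∫ x, (x : ℝ) ^ w ∂ν = q w / q 0) (hqc : ContinuousAt q 0)
    (hf : ∀ z, HasDerivAt f (f' z) z) (hf0 : f' 0 = 0) (hfq : ∀ z, f z - z * f' z = q (z ^ 2))
    {z : ℝ} (hz : 0 < z) :
    ∫⁻ x, ENNReal.ofReal (fx x z) ∂ν = ENNReal.ofReal (f z / q 0) := by
  have hae := ae_ne_zero ν hq0 hq hqc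
  have hqle : ∀ w : ℝ, 0 < w → q w / q 0 ≤ 1 := by
    intro w hw
    rw [← hq w hw]
    calc ∫ x, (x : ℝ) ^ w ∂ν ≤ ∫ _x : I, (1 : ℝ) ∂ν := by
          apply integral_mono (rpow_integrable ν hw.le) (integrable_const _)
          intro x
          exact Real.rpow_le_one x.2.1 x.2.2 hw.le
      _ = 1 := by simp
  have hf00 : f 0 = q 0 := by have := hfq 0; simpa using this
  -- representation of f
  have h1 : ENNReal.ofReal ((f z / q 0 - 1) / z) =
      ∫⁻ v in Ioc 0 z, ENNReal.ofReal ((1 - q (v ^ 2) / q 0) / v ^ 2) := by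
    have h2 := repr_lintegral (f := fun z => f z / q 0) (f' := fun z => f' z / q 0)
      (Q := fun z => q (z ^ 2) / q 0) (fun z => (hf z).div_const _) (by simp [hf0])
      (fun z => by rw [← hfq z]; ring) (fun z => by
        by_cases hz0 : z = 0
        · subst hz0; exact le_rfl
        · have h3 : (0 : ℝ) ^ 2 = 0 := by norm_num
          rw [h3, div_self hq0.ne']
          exact hqle _ (by positivity)) hz
    simp only [hf00] at h2
    have h3 : (0 : ℝ) ^ 2 = 0 := by norm_num
    simp only [h3, div_self hq0.ne'] at h2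
    exact h2
  -- the integral of (fx - 1)/z
  have h4 : ∫⁻ x, ENNReal.ofReal ((fx x z - 1) / z) ∂ν = ENNReal.ofReal ((f z / q 0 - 1) / z) := by
    rw [h1]
    have h5 : ∫⁻ x, ENNReal.ofReal ((fx x z - 1) / z) ∂ν =
        ∫⁻ x : I, (∫⁻ v in Ioc (0 : ℝ) z, ENNReal.ofReal ((1 - (x : ℝ) ^ (v ^ 2)) / v ^ 2)) ∂ν := by
      apply lintegral_congr_ae
      filter_upwards [hae] with x hx
      exact fx_repr hx hz
    rw [h5, lintegral_lintegral_swap]
    · apply setLIntegral_congr_fun measurableSet_Ioc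
      intro v hv
      have hv0 : 0 < v ^ 2 := by have := hv.1; positivity
      simp only
      have h6 : Integrable (fun x : I => (1 - (x : ℝ) ^ (v ^ 2)) / v ^ 2) ν :=
        ((integrable_const _).sub (rpow_integrable ν hv0.le)).div_const _
      rw [← ofReal_integral_eq_lintegral_ofReal h6]
      · congr 1
        rw [integral_div, integral_sub (integrable_const _) (rpow_integrable ν hv0.le), hq _ hv0]
        simp
      · refine Eventually.of_forall fun x => ?_
        apply div_nonneg _ hv0.le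
        have := Real.rpow_le_one x.2.1 x.2.2 hv0.le
        linarith
    · apply Measurable.aemeasurable
      apply ENNReal.measurable_ofReal.comp
      fun_prop
  -- conclude
  have h7 : ∫⁻ x, ENNReal.ofReal (fx x z) ∂ν =
      ∫⁻ x, (1 + ENNReal.ofReal z * ENNReal.ofReal ((fx x z - 1) / z)) ∂ν := by
    apply lintegral_congr_ae
    filter_upwards [hae] with x hx
    have h8 := one_le_fx x hz.le
    rw [← ENNReal.ofReal_mul hz.le, ← ENNReal.ofReal_one, ← ENNReal.ofReal_add zero_le_one]
    · congr 1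
      field_simp
      ring
    · have : 0 ≤ (fx x z - 1) / z := div_nonneg (by linarith) hz.le
      positivity
  have h9 : 1 ≤ f z / q 0 := by
    by_contra hcon
    push Not at hcon
    -- the nonneg derivative argument: use h1 with monotonicity via dslope
    have hk : ∀ v, 0 ≤ v → f 0 ≤ f v := by
      intro v hv
      rcases hv.eq_or_lt with rfl | hv
      · exact le_rfl
      have hmono : MonotoneOn (dslope f 0) (Icc 0 v) := by
        apply monotoneOn_of_deriv_nonneg (convex_Icc 0 v)
        · intro u _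
          apply ContinuousAt.continuousWithinAt
          by_cases hu : u = 0
          · subst hu
            exact continuousAt_dslope_same.mpr (hf 0).differentiableAt
          · exact (continuousAt_dslope_of_ne hu).mpr (hf u).continuousAt
        · intro u hu
          rw [interior_Icc] at hu
          exact ((differentiableAt_dslope_of_ne hu.1.ne').mpr
            (hf u).differentiableAt).differentiableWithinAt
        · intro u hu
          rw [interior_Icc] at hu
          have hu0 : u ≠ 0 := hu.1.ne'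
          have h1 : HasDerivAt (fun v => (f v - f 0) / v)
              ((f' u * u - (f u - f 0) * 1) / u ^ 2) u :=
            ((hf u).sub_const (f 0)).div (hasDerivAt_id u) hu0
          have h2 : HasDerivAt (dslope f 0) ((f' u * u - (f u - f 0) * 1) / u ^ 2) u := by
            refine h1.congr_of_eventuallyEq ?_
            filter_upwards [isOpen_ne.mem_nhds hu0] with x hx
            rw [dslope_of_ne _ hx, slope_def_field]
            simp
          rw [h2.deriv]
          have h3 : (f' u * u - (f u - f 0) * 1) / u ^ 2 = (q 0 - q (u ^ 2)) / u ^ 2 := by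
            rw [← hfq u, hf00]; ring
          rw [h3]
          apply div_nonneg _ (sq_nonneg u)
          have := hqle (u ^ 2) (by have := hu.1; positivity)
          rw [div_le_one hq0] at this
          linarith
      have h5 := hmono (left_mem_Icc.mpr hv.le) (right_mem_Icc.mpr hv.le) hv.le
      rw [dslope_same, (hf 0).deriv, hf0, dslope_of_ne _ hv.ne', slope_def_field] at h5
      have h6 : 0 ≤ f v - f 0 := by
        have := mul_nonneg h5 (show 0 ≤ v - 0 by linarith)
        rwa [div_mul_cancel₀ _ (by linarith : v - 0 ≠ 0)] at this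
      linarith
    have := hk z hz.le
    rw [hf00] at this
    rw [div_lt_one hq0] at hcon
    linarith
  have hmeas : Measurable fun x : I => ENNReal.ofReal z * ENNReal.ofReal ((fx x z - 1) / z) := by
    have h10 : Measurable fun x : I => fx x z := by
      have hA : Continuous Ab := continuous_iff_continuousAt.mpr fun u => (hasDerivAt_Ab u).continuousAt
      unfold fx
      exact (hA.measurable.comp (measurable_bb.const_mul z)).const_mul _
    fun_prop
  rw [h7, lintegral_add_left measurable_const, lintegral_const_mul' _ _ ENNReal.ofReal_ne_top, h4,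
    ← ENNReal.ofReal_mul hz.le]
  simp only [lintegral_const, measure_univ, mul_one]
  rw [← ENNReal.ofReal_one, ← ENNReal.ofReal_add zero_le_one]
  · congr 1
    field_simp
    ring
  · have : 0 ≤ (f z / q 0 - 1) / z := div_nonneg (by linarith) hz.le
    positivity

/-- The mixture formula. -/
theorem mix (ν : Measure I) [IsProbabilityMeasure ν] {q f f' : ℝ → ℝ} (hq0 : 0 < q 0)
    (hq : ∀ w : ℝ, 0 < w → ∫ x, (x : ℝ) ^ w ∂ν = q w / q 0) (hqc : ContinuousAt q 0)
    (hf : ∀ z, HasDerivAt f (f' z) z) (hf0 : f' 0 = 0) (hfq : ∀ z, f z - z * f' z = q (z ^ 2))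
    {z : ℝ} (hz : 0 ≤ z) :
    ∫⁻ x, ENNReal.ofReal (Ab (z * bb x)) ∂ν =
      ENNReal.ofReal (2 / Real.sqrt (2 * Real.pi) * (f z / q 0)) := by
  have hs := sqrt_two_pi_pos
  have h1 : ∫⁻ x, ENNReal.ofReal (fx x z) ∂ν = ENNReal.ofReal (f z / q 0) := by
    rcases hz.eq_or_lt with rfl | hz
    · have hf00 : f 0 = q 0 := by have := hfq 0; simpa using this
      have : ∀ x : I, fx x 0 = 1 := by
        intro x
        rw [fx, zero_mul, Ab_zero]
        field_simp
      simp_rw [this, hf00, div_self hq0.ne']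
      simp
    · exact mix_aux ν hq0 hq hqc hf hf0 hfq hz
  have h2 : ∀ x : I, ENNReal.ofReal (Ab (z * bb x)) =
      ENNReal.ofReal (2 / Real.sqrt (2 * Real.pi)) * ENNReal.ofReal (fx x z) := by
    intro x
    rw [← ENNReal.ofReal_mul (by positivity)]
    congr 1
    rw [fx]
    field_simp
  simp_rw [h2]
  rw [lintegral_const_mul' _ _ ENNReal.ofReal_ne_top, h1, ← ENNReal.ofReal_mul (by positivity)]

end Pool.Agent.H403R2
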