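import Mathlib
import Pool.Agent.H403R2.Mix

/-!
Gaussian sequences on the product space.
-/

set_option autoImplicit false

namespace Pool.Agent.H403R2

open MeasureTheory Filter Topology Set ProbabilityTheory
open scoped ENNReal NNReal unitInterval

/-- the law of an iid Gaussian sequence -/
noncomputable def Pg : Measure (ℕ → ℝ) := Measure.infinitePi (fun _ => gaussianReal 0 1)

instance : IsProbabilityMeasure Pg := by unfold Pg; infer_instance

lemma law_sum (x : ℕ → ℝ) (s : Finset ℕ) :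
    Pg.map (fun ω => ∑ i ∈ s, x i * ω i) = gaussianReal 0 (∑ i ∈ s, Real.toNNReal (x i ^ 2)) := by
  induction s using Finset.induction_on with
  | empty =>
    simp only [Finset.sum_empty, gaussianReal_zero_var, Measure.map_const, measure_univ, one_smul]
  | insert a s ha ih =>
    have hind : iIndepFun (fun (i : ℕ) (ω : ℕ → ℝ) => x i * ω i) Pg :=
      iIndepFun_infinitePi (X := fun i t => x i * t) (fun i => by fun_prop)
    have h1 : IndepFun (∑ i ∈ s, fun ω : ℕ → ℝ => x i * ω i) (fun ω => x a * ω a) Pg :=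
      hind.indepFun_finsetSum_of_notMem (fun i => by fun_prop) ha
    have h2 : Pg.map (fun ω : ℕ → ℝ => x a * ω a) = gaussianReal 0 (Real.toNNReal (x a ^ 2)) := by
      have h3 := Measure.infinitePi_map_eval (fun _ : ℕ => gaussianReal 0 1) a
      have h4 : Pg.map (fun ω : ℕ → ℝ => x a * ω a) =
          (Pg.map (fun ω : ℕ → ℝ => ω a)).map (fun t => x a * t) := by
        rw [Measure.map_map (by fun_prop) (by fun_prop)]
        rfl
      rw [h4]
      unfold Pg
      rw [h3, gaussianReal_map_const_mul]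
      congr 1
      · simp
      · rw [mul_one]
        ext
        simp [Real.coe_toNNReal _ (sq_nonneg (x a))]
    have h3 : Pg.map (∑ i ∈ s, fun ω : ℕ → ℝ => x i * ω i) =
        gaussianReal 0 (∑ i ∈ s, Real.toNNReal (x i ^ 2)) := by
      rw [← ih]
      congr 1
      funext ω
      simp
    have h4 := gaussianReal_add_gaussianReal_of_indepFun h1 h3 h2
    have h5 : (fun ω : ℕ → ℝ => ∑ i ∈ insert a s, x i * ω i) =
        (∑ i ∈ s, fun ω : ℕ → ℝ => x i * ω i) + (fun ω => x a * ω a) := by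
      funext ω
      rw [Finset.sum_insert ha]
      simp [add_comm]
    rw [h5, h4, Finset.sum_insert ha, add_comm (∑ i ∈ s, _) _, add_zero]

lemma gauss_scale {ρ : ℝ} (hρ : 0 < ρ) (c : ℝ) :
    ∫⁻ t, ENNReal.ofReal |t + c| ∂(gaussianReal 0 (Real.toNNReal (ρ ^ 2))) =
      ENNReal.ofReal ρ * ENNReal.ofReal (Ab (c / ρ)) := by
  have h1 : gaussianReal 0 (Real.toNNReal (ρ ^ 2)) = (gaussianReal 0 1).map (fun t => ρ * t) := by
    rw [gaussianReal_map_const_mul]
    congr 1
    · simp
    · rw [mul_one]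
      ext
      simp [Real.coe_toNNReal _ (sq_nonneg ρ)]
  rw [h1, lintegral_map (by fun_prop) (by fun_prop), ← lintegral_abs,
    ← lintegral_const_mul' _ _ ENNReal.ofReal_ne_top]
  apply lintegral_congr
  intro t
  rw [← ENNReal.ofReal_mul hρ.le]
  congr 1
  have : ρ * t + c = ρ * (t + c / ρ) := by field_simp
  rw [this, abs_mul, abs_of_pos hρ]

lemma Ph_neg (u : ℝ) : Ph (-u) = -Ph u := by
  unfold Ph
  have := intervalIntegral.integral_comp_neg (a := (0 : ℝ)) (b := u) ph
  simp only [ph_neg, neg_zero] at this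
  rw [this, intervalIntegral.integral_symm]

lemma Ab_neg (u : ℝ) : Ab (-u) = Ab u := by
  unfold Ab
  rw [ph_neg, Ph_neg]
  ring

lemma Ab_abs (u : ℝ) : Ab |u| = Ab u := by
  rcases abs_choice u with h | h
  · rw [h]
  · rw [h, Ab_neg]

lemma abs_le_Ab (u : ℝ) : |u| ≤ Ab u := by
  have h0 : ∀ u : ℝ, u ≤ Ab u := by
    intro u
    have hint : Integrable fun t => |t + u| * ph t := by
      have h1 : Integrable fun t => t * ph t + u * ph t := integrable_mul_ph.add
        (integrable_ph.const_mul u)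
      refine h1.norm.congr (Eventually.of_forall fun t => ?_)
      simp only
      rw [← add_mul, norm_mul, Real.norm_eq_abs, Real.norm_of_nonneg (ph_pos t).le]
    have h1 : ∫ t, (t * ph t + u * ph t) = u := by
      rw [integral_add integrable_mul_ph (integrable_ph.const_mul u), integral_const_mul,
        integral_ph]
      have h2 : ∫ t, t * ph t = 0 := by
        have h3 := intervalIntegral.integral_Iic_add_Ioi (b := (0 : ℝ))
          integrable_mul_ph.integrableOn integrable_mul_ph.integrableOn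
        rw [integral_Iic_mul_ph, integral_Ioi_mul_ph] at h3
        linarith
      rw [h2]
      ring
    rw [← integral_abs]
    calc u = ∫ t, (t * ph t + u * ph t) := h1.symm
      _ ≤ ∫ t, |t + u| * ph t := by
        apply integral_mono (integrable_mul_ph.add (integrable_ph.const_mul u)) hint
        intro t
        show t * ph t + u * ph t ≤ |t + u| * ph t
        rw [← add_mul]
        exact mul_le_mul_of_nonneg_right (le_abs_self _) (ph_pos t).le
  rcases abs_choice u with h | h
  · rw [h]; exact h0 u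
  · rw [h, ← Ab_neg]; exact h0 (-u)

/-- the main computation on the product space -/
lemma prod_lintegral (ν : Measure I) [IsProbabilityMeasure ν] {q f f' : ℝ → ℝ} (hq0 : 0 < q 0)
    (hq : ∀ w : ℝ, 0 < w → ∫ x, (x : ℝ) ^ w ∂ν = q w / q 0) (hqc : ContinuousAt q 0)
    (hf : ∀ z, HasDerivAt f (f' z) z) (hf0 : f' 0 = 0) (hfq : ∀ z, f z - z * f' z = q (z ^ 2))
    (x : ℕ → ℝ) (s : Finset ℕ) {ρ : ℝ} (hρ : 0 < ρ) (hx : ∑ i ∈ s, x i ^ 2 = ρ ^ 2) (y : ℝ) :
    ∫⁻ p, ENNReal.ofReal |∑ i ∈ s, x i * p.1 i + y * bb p.2| ∂(Pg.prod ν) =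
      ENNReal.ofReal (2 / Real.sqrt (2 * Real.pi) / q 0 * (ρ * f (|y| / ρ))) := by
  have hsum : ∑ i ∈ s, Real.toNNReal (x i ^ 2) = Real.toNNReal (ρ ^ 2) := by
    rw [← hx, Real.toNNReal_sum_of_nonneg (fun i _ => sq_nonneg _)]
  have hmbb := measurable_bb
  have hmeas : Measurable fun p : (ℕ → ℝ) × I =>
      ENNReal.ofReal |∑ i ∈ s, x i * p.1 i + y * bb p.2| := by
    apply ENNReal.measurable_ofReal.comp
    apply Measurable.norm (f := fun p : (ℕ → ℝ) × I => ∑ i ∈ s, x i * p.1 i + y * bb p.2)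
    apply Measurable.add
    · fun_prop
    · exact (hmbb.comp measurable_snd).const_mul y
  rw [lintegral_prod_symm _ hmeas.aemeasurable]
  have h1 : ∀ ξ : I, ∫⁻ ω, ENNReal.ofReal |∑ i ∈ s, x i * ω i + y * bb ξ| ∂Pg =
      ENNReal.ofReal ρ * ENNReal.ofReal (Ab (|y| / ρ * bb ξ)) := by
    intro ξ
    have h2 : ∫⁻ ω, ENNReal.ofReal |∑ i ∈ s, x i * ω i + y * bb ξ| ∂Pg =
        ∫⁻ t, ENNReal.ofReal |t + y * bb ξ| ∂(Pg.map (fun ω => ∑ i ∈ s, x i * ω i)) := by
      rw [lintegral_map (by fun_prop) (by fun_prop)]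
    rw [h2, law_sum, hsum, gauss_scale hρ]
    congr 2
    rw [← Ab_abs, abs_div, abs_mul, abs_of_pos hρ, abs_of_nonneg (bb_nonneg ξ)]
    congr 1
    ring
  simp_rw [h1]
  rw [lintegral_const_mul' _ _ ENNReal.ofReal_ne_top,
    mix ν hq0 hq hqc hf hf0 hfq (by positivity), ← ENNReal.ofReal_mul hρ.le]
  congr 1
  ring

end Pool.Agent.H403R2
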